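import Pool.Agent.P8H91.EL.Mil

/-!
# Auerbach bases, and ellipsoids of Milman inside a small dilate of the body
-/

set_option autoImplicit false

namespace Pool.Agent.P8H91.EL

open Finset MeasureTheory Pool.Agent.P8H91.GR Pool.Agent.H845R2
open scoped Pointwise MatrixOrder

/-- Auerbach: there is a linear map `W` with `|(W x)_i| ≤ 1` on `B`, such that `B` contains the
points `x` with `∑ |(W x)_i| ≤ 1`. -/
theorem auerbach {d : ℕ} (B : Set (Fin d → ℝ)) (hB : Body B) :
    ∃ W : Matrix (Fin d) (Fin d) ℝ, (∀ x ∈ B, ∀ i, |W.mulVec x i| ≤ 1) ∧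
      ∀ x : Fin d → ℝ, ∑ i, |W.mulVec x i| ≤ 1 → x ∈ B := by
  classical
  have hK : IsCompact (Set.univ.pi fun _ : Fin d => B) := isCompact_univ_pi fun _ => hB.2.1
  have h0 := body_zero hB
  have hne : (Set.univ.pi fun _ : Fin d => B).Nonempty := ⟨fun _ => 0, fun _ _ => h0⟩
  have hcont : Continuous fun V : Fin d → Fin d → ℝ => |(Matrix.of V).det| := by
    refine continuous_abs.comp ?_
    exact Continuous.matrix_det continuous_id
  obtain ⟨V, hV, hmax⟩ := hK.exists_isMaxOn hne hcont.continuousOn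
  have hmax' : ∀ V' : Fin d → Fin d → ℝ, (∀ i, V' i ∈ B) →
      |(Matrix.of V').det| ≤ |(Matrix.of V).det| := fun V' h => hmax fun i _ => h i
  have hVB : ∀ i, V i ∈ B := fun i => hV i (Set.mem_univ i)
  set N : Matrix (Fin d) (Fin d) ℝ := Matrix.of V with hN
  -- the determinant is not zero
  have hdet : 0 < |N.det| := by
    obtain ⟨r, hr, hrB⟩ := Metric.mem_nhds_iff.1 (body_nhds hB)
    have h1 : ∀ i, (fun k => (r / 2 : ℝ) * (1 : Matrix (Fin d) (Fin d) ℝ) i k) ∈ B := by
      intro i
      apply hrB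
      rw [mem_ball_zero_iff]
      have h2 : ‖(fun k => (r / 2 : ℝ) * (1 : Matrix (Fin d) (Fin d) ℝ) i k)‖ ≤ r / 2 := by
        rw [pi_norm_le_iff_of_nonneg (by positivity)]
        intro k
        rw [Real.norm_eq_abs, abs_mul, abs_of_pos (by positivity : 0 < r / 2), Matrix.one_apply]
        split_ifs
        · simp
        · simp
          positivity
      linarith
    have h3 := hmax' (fun i k => (r / 2 : ℝ) * (1 : Matrix (Fin d) (Fin d) ℝ) i k) h1
    refine lt_of_lt_of_le ?_ h3
    have h4 : (Matrix.of fun i k => (r / 2 : ℝ) * (1 : Matrix (Fin d) (Fin d) ℝ) i k) =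
        (r / 2 : ℝ) • (1 : Matrix (Fin d) (Fin d) ℝ) := by
      ext i k
      simp [Matrix.smul_apply]
    rw [h4, Matrix.det_smul, Matrix.det_one, mul_one]
    positivity
  have hdet0 : N.det ≠ 0 := abs_pos.1 hdet
  have hu : IsUnit N.transpose.det := by
    rw [Matrix.det_transpose]
    exact isUnit_iff_ne_zero.2 hdet0
  refine ⟨N.transpose⁻¹, ?_, ?_⟩
  · intro x hx i
    have h1 : N.transpose⁻¹.mulVec x = (N.det)⁻¹ • N.transpose.cramer x := by
      have h2 : N.transpose.mulVec ((N.det)⁻¹ • N.transpose.cramer x) = x := by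
        rw [Matrix.mulVec_smul, Matrix.mulVec_cramer, Matrix.det_transpose, smul_smul,
          inv_mul_cancel₀ hdet0, one_smul]
      calc N.transpose⁻¹.mulVec x =
          N.transpose⁻¹.mulVec (N.transpose.mulVec ((N.det)⁻¹ • N.transpose.cramer x)) := by
            rw [h2]
        _ = _ := by
            rw [Matrix.mulVec_mulVec, Matrix.nonsing_inv_mul _ hu, Matrix.one_mulVec]
    have h3 : |N.transpose.cramer x i| ≤ |N.det| := by
      rw [Matrix.cramer_apply, Matrix.updateCol_transpose, Matrix.det_transpose]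
      have h4 := hmax' (Function.update V i x) (by
        intro k
        by_cases hk : k = i
        · subst hk
          rw [Function.update_self]
          exact hx
        · rw [Function.update_of_ne hk]
          exact hVB k)
      exact h4
    rw [h1, Pi.smul_apply, smul_eq_mul, abs_mul, abs_inv, inv_mul_le_iff₀ hdet, mul_one]
    exact h3
  · intro x hx
    set c : Fin d → ℝ := N.transpose⁻¹.mulVec x with hc
    have h1 : N.transpose.mulVec c = x := by
      rw [hc, Matrix.mulVec_mulVec, Matrix.mul_nonsing_inv _ hu, Matrix.one_mulVec]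
    have h2 : x = ∑ i, c i • V i := by
      rw [← h1]
      funext k
      rw [Finset.sum_apply]
      show ∑ i, N i k * c i = ∑ i, c i * V i k
      exact Finset.sum_congr rfl fun i _ => mul_comm _ _
    -- signs
    have h3 : ∀ i, (SignType.sign (c i) : ℝ) • V i ∈ B := by
      intro i
      rcases lt_trichotomy (c i) 0 with h | h | h
      · rw [sign_neg h]
        simpa using hB.2.2.2 _ (hVB i)
      · rw [h, sign_zero]
        simpa using h0
      · rw [sign_pos h]
        simpa using hVB i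
    have h4 : x = (∑ i, |c i| • ((SignType.sign (c i) : ℝ) • V i)) +
        (1 - ∑ i, |c i|) • (0 : Fin d → ℝ) := by
      rw [smul_zero, add_zero, h2]
      refine Finset.sum_congr rfl fun i _ => ?_
      rw [smul_smul]
      congr 1
      exact (abs_mul_sign (c i)).symm
    rcases eq_or_lt_of_le (Finset.sum_nonneg fun i (_ : i ∈ (univ : Finset (Fin d))) => abs_nonneg (c i)) with hs | hs
    · have h5 : ∀ i, c i = 0 := by
        intro i
        have := (Finset.sum_eq_zero_iff_of_nonneg (fun i _ => abs_nonneg (c i))).1 hs.symm i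
          (Finset.mem_univ i)
        exact abs_eq_zero.1 this
      rw [h2]
      have : ∑ i, c i • V i = 0 := Finset.sum_eq_zero fun i _ => by rw [h5 i, zero_smul]
      rw [this]
      exact h0
    · have h6 : (∑ i, |c i|)⁻¹ • (∑ i, |c i| • ((SignType.sign (c i) : ℝ) • V i)) ∈ B := by
        rw [Finset.smul_sum]
        simp_rw [smul_smul (∑ i, |c i|)⁻¹]
        refine hB.1.sum_mem (fun i _ => by positivity) ?_ fun i _ => h3 i
        rw [← Finset.mul_sum, inv_mul_cancel₀ hs.ne']
      rw [h4, smul_zero, add_zero]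
      have h7 := hB.1.smul_mem_of_zero_mem h0 h6 ⟨hs.le, hx⟩
      rwa [smul_smul, mul_inv_cancel₀ hs.ne', one_smul] at h7

/-- The sum of two quadratic forms. -/
theorem sum_forms {d : ℕ} (M N : Matrix (Fin d) (Fin d) ℝ) (hM : M.det ≠ 0) :
    ∃ R : Matrix (Fin d) (Fin d) ℝ, R.det ≠ 0 ∧ ∀ x : Fin d → ℝ,
      ∑ i, (R.mulVec x i) ^ 2 = ∑ i, (M.mulVec x i) ^ 2 + ∑ i, (N.mulVec x i) ^ 2 := by
  classical
  have hq : ∀ (A : Matrix (Fin d) (Fin d) ℝ) (x : Fin d → ℝ),
      ∑ i, (A.mulVec x i) ^ 2 = x ⬝ᵥ ((A.conjTranspose * A).mulVec x) := by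
    intro A x
    rw [← Matrix.mulVec_mulVec, Matrix.dotProduct_mulVec, Matrix.vecMul_conjTranspose]
    unfold dotProduct
    simp [sq]
  have hps : (M.conjTranspose * M + N.conjTranspose * N).PosSemidef :=
    (Matrix.posSemidef_conjTranspose_mul_self M).add (Matrix.posSemidef_conjTranspose_mul_self N)
  obtain ⟨R, hR⟩ : ∃ R : Matrix (Fin d) (Fin d) ℝ,
      M.conjTranspose * M + N.conjTranspose * N = R.conjTranspose * R :=
    CStarAlgebra.nonneg_iff_eq_star_mul_self.mp hps.nonneg
  have hsum : ∀ x : Fin d → ℝ,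
      ∑ i, (R.mulVec x i) ^ 2 = ∑ i, (M.mulVec x i) ^ 2 + ∑ i, (N.mulVec x i) ^ 2 := by
    intro x
    rw [hq R, ← hR, Matrix.add_mulVec, dotProduct_add, ← hq, ← hq]
  refine ⟨R, ?_, hsum⟩
  intro hdet
  obtain ⟨v, hv, hv0⟩ := Matrix.exists_mulVec_eq_zero_iff.2 hdet
  have h1 := hsum v
  rw [hv0] at h1
  have h2 : ∑ i, (M.mulVec v i) ^ 2 = 0 := by
    have h3 : 0 ≤ ∑ i, (M.mulVec v i) ^ 2 := Finset.sum_nonneg fun i _ => sq_nonneg _
    have h4 : 0 ≤ ∑ i, (N.mulVec v i) ^ 2 := Finset.sum_nonneg fun i _ => sq_nonneg _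
    simp at h1
    linarith
  have h5 : M.mulVec v = 0 := by
    funext i
    have := (Finset.sum_eq_zero_iff_of_nonneg (fun i _ => sq_nonneg (M.mulVec v i))).1 h2 i
      (Finset.mem_univ i)
    exact pow_eq_zero_iff (two_ne_zero) |>.1 this
  exact hM (Matrix.exists_mulVec_eq_zero_iff.1 ⟨v, hv, h5⟩)

end Pool.Agent.P8H91.EL
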