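import Pool.Agent.P8H91.EL.Gen

/-!
# Ellipsoids
-/

set_option autoImplicit false

namespace Pool.Agent.P8H91.EL

open Finset MeasureTheory Pool.Agent.P8H91.GR
open scoped Pointwise

/-- The ellipsoid of the matrix `M`. -/
def Ell {d : ℕ} (M : Matrix (Fin d) (Fin d) ℝ) : Set (Fin d → ℝ) :=
  {x | ∑ i, (∑ j, M i j * x j) ^ 2 ≤ 1}

theorem ell_smul {d : ℕ} (M : Matrix (Fin d) (Fin d) ℝ) {t : ℝ} (ht : 0 < t) :
    t • Ell M = Ell (t⁻¹ • M) := by
  ext x
  rw [Set.mem_smul_set_iff_inv_smul_mem₀ ht.ne']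
  have h : ∀ i, ∑ j, M i j * ((t⁻¹ • x) j) = ∑ j, (t⁻¹ • M) i j * x j := by
    intro i
    refine Finset.sum_congr rfl fun j _ => ?_
    simp only [Pi.smul_apply, smul_eq_mul, Matrix.smul_apply]
    ring
  show ∑ i, (∑ j, M i j * ((t⁻¹ • x) j)) ^ 2 ≤ 1 ↔ ∑ i, (∑ j, (t⁻¹ • M) i j * x j) ^ 2 ≤ 1
  simp_rw [h]

theorem ball_compact {d : ℕ} : IsCompact {y : Fin d → ℝ | ∑ i, (y i) ^ 2 ≤ 1} := by
  refine Metric.isCompact_of_isClosed_isBounded ?_ ?_
  · refine isClosed_le ?_ continuous_const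
    fun_prop
  · rw [isBounded_iff_forall_norm_le]
    refine ⟨1, fun y hy => ?_⟩
    rw [pi_norm_le_iff_of_nonneg zero_le_one]
    intro i
    have h1 : (y i) ^ 2 ≤ ∑ i, (y i) ^ 2 :=
      Finset.single_le_sum (f := fun i => (y i) ^ 2) (fun i _ => sq_nonneg _) (Finset.mem_univ i)
    have h2 : (y i) ^ 2 ≤ 1 := h1.trans hy
    rw [Real.norm_eq_abs]
    exact abs_le_one_iff_mul_self_le_one.2 (by nlinarith)

theorem ell_body {d : ℕ} (M : Matrix (Fin d) (Fin d) ℝ) (hM : M.det ≠ 0) : Body (Ell M) := by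
  have hu : IsUnit M.det := isUnit_iff_ne_zero.2 hM
  refine ⟨?_, ?_, ?_, ?_⟩
  · intro x hx y hy a b ha hb hab
    have hx' : ∑ i, (∑ j, M i j * x j) ^ 2 ≤ 1 := hx
    have hy' : ∑ i, (∑ j, M i j * y j) ^ 2 ≤ 1 := hy
    show ∑ i, (∑ j, M i j * ((a • x + b • y) j)) ^ 2 ≤ 1
    have h1 : ∀ i, (∑ j, M i j * ((a • x + b • y) j)) ^ 2 ≤
        a * (∑ j, M i j * x j) ^ 2 + b * (∑ j, M i j * y j) ^ 2 := by
      intro i
      have e : ∑ j, M i j * ((a • x + b • y) j) =
          a * (∑ j, M i j * x j) + b * (∑ j, M i j * y j) := by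
        rw [Finset.mul_sum, Finset.mul_sum, ← Finset.sum_add_distrib]
        refine Finset.sum_congr rfl fun j _ => ?_
        simp only [Pi.add_apply, Pi.smul_apply, smul_eq_mul]
        ring
      rw [e]
      have hb' : b = 1 - a := by linarith
      subst hb'
      nlinarith [mul_nonneg (mul_nonneg ha hb)
        (sq_nonneg ((∑ j, M i j * x j) - (∑ j, M i j * y j)))]
    calc ∑ i, (∑ j, M i j * ((a • x + b • y) j)) ^ 2
        ≤ ∑ i, (a * (∑ j, M i j * x j) ^ 2 + b * (∑ j, M i j * y j) ^ 2) :=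
          Finset.sum_le_sum fun i _ => h1 i
      _ = a * ∑ i, (∑ j, M i j * x j) ^ 2 + b * ∑ i, (∑ j, M i j * y j) ^ 2 := by
          rw [Finset.sum_add_distrib, Finset.mul_sum, Finset.mul_sum]
      _ ≤ a * 1 + b * 1 := by gcongr
      _ = 1 := by linarith
  · have h1 : Ell M = (fun y : Fin d → ℝ => M⁻¹.mulVec y) '' {y | ∑ i, (y i) ^ 2 ≤ 1} := by
      ext x
      constructor
      · intro hx
        refine ⟨M.mulVec x, hx, ?_⟩
        show M⁻¹.mulVec (M.mulVec x) = x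
        rw [Matrix.mulVec_mulVec, Matrix.nonsing_inv_mul _ hu, Matrix.one_mulVec]
      · rintro ⟨y, hy, rfl⟩
        show ∑ i, (M.mulVec (M⁻¹.mulVec y) i) ^ 2 ≤ 1
        rw [Matrix.mulVec_mulVec, Matrix.mul_nonsing_inv _ hu, Matrix.one_mulVec]
        exact hy
    rw [h1]
    refine ball_compact.image ?_
    exact Continuous.matrix_mulVec continuous_const continuous_id
  · refine ⟨0, ?_⟩
    rw [mem_interior]
    refine ⟨{x | ∑ i, (∑ j, M i j * x j) ^ 2 < 1}, ?_, ?_, ?_⟩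
    · intro x hx
      have h : ∑ i, (∑ j, M i j * x j) ^ 2 < 1 := hx
      show ∑ i, (∑ j, M i j * x j) ^ 2 ≤ 1
      exact h.le
    · refine isOpen_lt ?_ continuous_const
      fun_prop
    · show ∑ i, (∑ j, M i j * ((0 : Fin d → ℝ) j)) ^ 2 < 1
      simp
  · intro x hx
    show ∑ i, (∑ j, M i j * ((-x) j)) ^ 2 ≤ 1
    have h1 : ∀ i, ∑ j, M i j * ((-x) j) = -∑ j, M i j * x j := by
      intro i
      rw [← Finset.sum_neg_distrib]
      refine Finset.sum_congr rfl fun j _ => ?_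
      simp
    simp_rw [h1, neg_sq]
    exact hx

/-- The volume of the euclidean ball of radius `√(2 d)`. -/
theorem ball_vol (d : ℕ) :
    (volume {y : Fin d → ℝ | ∑ i, (y i) ^ 2 ≤ 2 * d}).toReal ≤ 16 ^ d := by
  set S : Set (Fin d → ℝ) := {y : Fin d → ℝ | ∑ i, (y i) ^ 2 ≤ 2 * d} with hS
  have hSm : MeasurableSet S := by
    have : IsClosed S := by
      refine isClosed_le ?_ continuous_const
      fun_prop
    exact this.measurableSet
  have hSfin : volume S ≠ ⊤ := by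
    have hb : Bornology.IsBounded S := by
      rw [isBounded_iff_forall_norm_le]
      refine ⟨2 * d, fun y hy => ?_⟩
      rw [pi_norm_le_iff_of_nonneg (by positivity)]
      intro i
      have h1 : (y i) ^ 2 ≤ ∑ i, (y i) ^ 2 :=
        Finset.single_le_sum (f := fun i => (y i) ^ 2) (fun i _ => sq_nonneg _) (Finset.mem_univ i)
      have h2 : (y i) ^ 2 ≤ 2 * d := h1.trans hy
      have hd : (1 : ℝ) ≤ d := by
        have : 0 < d := Fin.pos i
        exact_mod_cast this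
      rw [Real.norm_eq_abs]
      refine abs_le_of_sq_le_sq ?_ (by positivity)
      nlinarith
    exact hb.measure_lt_top.ne
  have hI : Integrable (fun y : Fin d → ℝ => ∏ i, Real.exp (-(y i) ^ 2)) := by
    refine Integrable.fintype_prod (f := fun _ (y : ℝ) => Real.exp (-y ^ 2)) (fun i => ?_)
    have := integrable_exp_neg_mul_sq (b := 1) one_pos
    simpa using this
  have hJ : ∫ y : Fin d → ℝ, ∏ i, Real.exp (-(y i) ^ 2) = Real.sqrt Real.pi ^ d := by
    rw [integral_fintype_prod_volume_eq_prod (fun _ (y : ℝ) => Real.exp (-y ^ 2))]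
    have h1 : ∫ y : ℝ, Real.exp (-y ^ 2) = Real.sqrt Real.pi := by
      have := integral_gaussian 1
      simpa using this
    rw [h1, Finset.prod_const, Finset.card_univ, Fintype.card_fin]
  have h1 : ∫ _y in S, Real.exp (-(2 * d : ℝ)) ≤ ∫ y in S, ∏ i, Real.exp (-(y i) ^ 2) := by
    refine setIntegral_mono_on (integrableOn_const hSfin) hI.integrableOn hSm fun y hy => ?_
    rw [← Real.exp_sum]
    apply Real.exp_le_exp.2
    have : ∑ i, -(y i) ^ 2 = -∑ i, (y i) ^ 2 := by rw [Finset.sum_neg_distrib]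
    rw [this]
    exact neg_le_neg hy
  have h2 : ∫ y in S, ∏ i, Real.exp (-(y i) ^ 2) ≤ ∫ y : Fin d → ℝ, ∏ i, Real.exp (-(y i) ^ 2) :=
    setIntegral_le_integral hI (Filter.Eventually.of_forall fun y =>
      Finset.prod_nonneg fun i _ => (Real.exp_pos _).le)
  have h3 : ∫ _y in S, Real.exp (-(2 * d : ℝ)) = (volume S).toReal * Real.exp (-(2 * d : ℝ)) := by
    rw [setIntegral_const, smul_eq_mul]
    rfl
  have h4 : (volume S).toReal * Real.exp (-(2 * d : ℝ)) ≤ Real.sqrt Real.pi ^ d := by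
    rw [← h3, ← hJ]
    exact h1.trans h2
  have h5 : (volume S).toReal ≤ Real.sqrt Real.pi ^ d * Real.exp (2 * d) := by
    have h6 : Real.exp (-(2 * d : ℝ)) * Real.exp (2 * d) = 1 := by
      rw [← Real.exp_add]; simp
    calc (volume S).toReal = ((volume S).toReal * Real.exp (-(2 * d : ℝ))) * Real.exp (2 * d) := by
          rw [mul_assoc, h6, mul_one]
      _ ≤ _ := by gcongr
  have h6 : Real.sqrt Real.pi ≤ 2 := by
    rw [Real.sqrt_le_left (by norm_num)]
    linarith [Real.pi_le_four]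
  have h7 : Real.exp (2 * (d : ℝ)) ≤ 8 ^ d := by
    have e : Real.exp (2 * (d : ℝ)) = (Real.exp 1 ^ 2) ^ d := by
      rw [← pow_mul, ← Real.exp_nat_mul]
      congr 1
      push_cast
      ring
    rw [e]
    refine pow_le_pow_left₀ (by positivity) ?_ d
    have := Real.exp_one_lt_d9
    nlinarith [Real.exp_pos 1]
  calc (volume S).toReal ≤ Real.sqrt Real.pi ^ d * Real.exp (2 * d) := h5
    _ ≤ 2 ^ d * 8 ^ d := by gcongr
    _ = 16 ^ d := by rw [← mul_pow]; norm_num

end Pool.Agent.P8H91.EL
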