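import Pool.Agent.P8H91.EL.Pos
import Pool.Agent.P8H91.PV.Final

/-!
# The conjecture with ellipsoids
-/

set_option autoImplicit false

namespace Pool.Agent.P8H91.EL

open Finset Pool.Agent.P8H91.GR Pool.Agent.P8H91.PV
open scoped Pointwise

/-- The conclusion of the polynomial Freiman-Ruzsa conjecture with ellipsoids, for the sets `A`
with `P K A`. -/
def PFREll (P : ℝ → Finset ℤ → Prop) : Prop :=
  ∃ C : ℝ, 1 ≤ C ∧ ∀ (A : Finset ℤ) (K : ℝ), A.Nonempty → 1 ≤ K →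
    ((A + A).card : ℝ) ≤ K * A.card → P K A →
    ∃ (d : ℕ) (M : Matrix (Fin d) (Fin d) ℝ) (φ : (Fin d → ℤ) →+ ℤ) (T : Finset ℤ),
      (d : ℝ) ≤ C * (1 + Real.log K) ∧ M.det ≠ 0 ∧ (pts (Ell M)).ncard ≤ A.card ∧
      (T.card : ℝ) ≤ C * K ^ C ∧ ∀ a ∈ A, ∃ t ∈ T, ∃ c ∈ pts (Ell M), a = t + φ c

/-- `A` is a dense subset of a highly proper ellipsoidal progression of small dimension. -/
def DenseInEll (ε δ a K : ℝ) (A : Finset ℤ) : Prop :=
  ∃ (d : ℕ) (M : Matrix (Fin d) (Fin d) ℝ) (φ : (Fin d → ℤ) →+ ℤ),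
    (d : ℝ) ≤ δ * (1 + Real.log K) ∧ M.det ≠ 0 ∧
    Set.InjOn φ (pts (((1 + Real.log K) ^ a) • Ell M)) ∧
    ((pts (((1 + Real.log K) ^ a) • Ell M)).ncard : ℝ) ≤
      Real.exp (δ * (1 + Real.log K) ^ (1 + ε)) * A.card ∧
    ∀ x ∈ A, ∃ c ∈ pts (Ell M), x = φ c

lemma exp_one_lb : (2.7 : ℝ) ≤ Real.exp 1 := by
  have := Real.exp_one_gt_d9
  linarith

lemma pow_exp {b e : ℕ} (h : (b : ℝ) ≤ 2.7 ^ e) (d : ℕ) {x : ℝ} (hx : (d : ℝ) ≤ x) :
    (b : ℝ) ^ d ≤ Real.exp (e * x) := by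
  have h1 : (b : ℝ) ≤ Real.exp e := by
    have e1 : Real.exp (e : ℝ) = Real.exp 1 ^ e := by rw [← Real.exp_nat_mul, mul_one]
    rw [e1]
    exact h.trans (pow_le_pow_left₀ (by norm_num) exp_one_lb e)
  calc (b : ℝ) ^ d ≤ Real.exp e ^ d := pow_le_pow_left₀ (Nat.cast_nonneg _) h1 d
    _ = Real.exp (e * d) := by rw [← Real.exp_nat_mul]; congr 1; ring
    _ ≤ Real.exp (e * x) := by
        apply Real.exp_le_exp.2
        exact mul_le_mul_of_nonneg_left hx (Nat.cast_nonneg _)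

theorem ell_iff (P : ℝ → Finset ℤ → Prop) : PFREll P ↔ PFRFor P := by
  classical
  constructor
  · rintro ⟨C, hC, H⟩
    refine ⟨C, hC, fun A K hA hK hAK hP => ?_⟩
    obtain ⟨d, M, φ, T, h1, h2, h3, h4, h5⟩ := H A K hA hK hAK hP
    exact ⟨d, Ell M, φ, T, h1, ell_body M h2, h3, h4, h5⟩
  · rintro ⟨C, hC, H⟩
    have hC0 : 0 ≤ C := by linarith
    refine ⟨Real.exp (17 * C), Real.one_le_exp (by linarith), fun A K hA hK hAK hP => ?_⟩
    obtain ⟨d, B, φ, T, h1, h2, h3, h4, h5⟩ := H A K hA hK hAK hP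
    obtain ⟨M, hM, hcard, F, hF, hcov⟩ := normalised B h2
    have hlK : 0 ≤ Real.log K := Real.log_nonneg hK
    have hl1 : 1 ≤ 1 + Real.log K := by linarith
    refine ⟨d, M, φ, T + F.image φ, ?_, hM, hcard.trans h3, ?_, ?_⟩
    · refine h1.trans (mul_le_mul_of_nonneg_right ?_ (by linarith))
      have := Real.add_one_le_exp (17 * C)
      linarith
    · have e1 : (T + F.image φ).card ≤ T.card * F.card :=
        Finset.card_add_le.trans (Nat.mul_le_mul_left _ Finset.card_image_le)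
      have e2 : ((T + F.image φ).card : ℝ) ≤ T.card * F.card := by exact_mod_cast e1
      refine (e2.trans ?_).trans (exp_poly hK)
      have e3 : (F.card : ℝ) ≤ Real.exp ((16 : ℕ) * (C * (1 + Real.log K))) := by
        have e4 : (F.card : ℝ) ≤ ((7464960 : ℕ) : ℝ) ^ d := by exact_mod_cast hF
        exact e4.trans (pow_exp (by norm_num) d h1)
      have e5 : (T.card : ℝ) ≤ Real.exp (C * (1 + Real.log K)) := by
        refine h4.trans ?_
        have e6 : C ≤ Real.exp C := by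
          have := Real.add_one_le_exp C
          linarith
        have e7 : K ^ C = Real.exp (C * Real.log K) := by
          rw [Real.rpow_def_of_pos (by linarith)]
          congr 1; ring
        rw [e7, mul_add, mul_one, Real.exp_add]
        exact mul_le_mul_of_nonneg_right e6 (Real.exp_pos _).le
      calc (T.card : ℝ) * F.card ≤ Real.exp (C * (1 + Real.log K)) *
            Real.exp ((16 : ℕ) * (C * (1 + Real.log K))) :=
            mul_le_mul e5 e3 (Nat.cast_nonneg _) (Real.exp_pos _).le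
        _ = Real.exp (17 * C * (1 + Real.log K)) := by
            rw [← Real.exp_add]
            congr 1
            push_cast
            ring
    · intro a ha
      obtain ⟨t, ht, c, hc, rfl⟩ := h5 a ha
      obtain ⟨x, hx, hcx⟩ := hcov c hc
      refine ⟨t + φ x, Finset.add_mem_add ht (mem_image_of_mem _ hx), c - x, hcx, ?_⟩
      rw [map_sub]
      ring


theorem normal_form (ε δ a : ℝ) (hε : 0 < ε) (hδ : 0 < δ) (ha : 0 < a)
    (H₁ : PFREll (DenseInEll ε δ a)) : PFREll fun _ _ => True := by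
  classical
  obtain ⟨C₀, hC₀, H⟩ := part_one
  obtain ⟨C₁, hC₁, H₁⟩ := H₁
  obtain ⟨s, hs⟩ : ∃ s : ℝ, s = max 1 ((1 + 2 * (a + 1)) / ε) := ⟨_, rfl⟩
  have hs1 : 1 ≤ s := by rw [hs]; exact le_max_left _ _
  have hs0 : 0 < s := by linarith
  have hs2 : 1 + 2 * (a + 1) ≤ ε * s := by
    have : (1 + 2 * (a + 1)) / ε ≤ s := by rw [hs]; exact le_max_right _ _
    rw [div_le_iff₀ hε] at this
    linarith
  obtain ⟨q₀, hq₀⟩ : ∃ q₀ : ℝ, q₀ = C₀ * s := ⟨_, rfl⟩
  have hq₀1 : 1 ≤ q₀ := by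
    rw [hq₀]
    calc (1 : ℝ) = 1 * 1 := (mul_one _).symm
      _ ≤ C₀ * s := mul_le_mul hC₀ hs1 (by norm_num) (by linarith)
  obtain ⟨q, hq⟩ : ∃ q : ℝ, q = 6 * q₀ := ⟨_, rfl⟩
  have hq1 : 1 ≤ q := by linarith
  have h2ε : (1 : ℝ) ≤ 2 ^ ε := Real.one_le_rpow (by norm_num) hε.le
  have hqd : 0 < q * (4 * 2 ^ ε) / δ := by positivity
  obtain ⟨M, hM⟩ : ∃ M : ℝ, M = 1 + q + q * (4 * 2 ^ ε) / δ := ⟨_, rfl⟩
  have hM1 : 1 ≤ M := by linarith
  have hMq : 1 + q ≤ M := by linarith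
  have hqM : q * (4 * 2 ^ ε) ≤ δ * M := by
    have h1 : q * (4 * 2 ^ ε) / δ ≤ M := by linarith
    rw [div_le_iff₀ hδ] at h1
    linarith
  have hqM' : q ≤ δ * M := by
    have : q * 1 ≤ q * (4 * 2 ^ ε) := mul_le_mul_of_nonneg_left (by linarith) (by linarith)
    linarith
  obtain ⟨c, hc⟩ : ∃ c : ℝ, c = (1 + q) + 2 * C₁ + 2 * (C₁ * M) + 2 * (C₁ * (1 + M)) := ⟨_, rfl⟩
  have hCM : 0 ≤ C₁ * M := by positivity
  have hCM' : C₁ ≤ C₁ * M := le_mul_of_one_le_right (by linarith) hM1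
  have hc0 : C₁ * (1 + M) ≤ c := by
    rw [hc]
    have : C₁ * (1 + M) = C₁ + C₁ * M := by ring
    linarith
  have hcle : c ≤ Real.exp c := by
    have := Real.add_one_le_exp c
    linarith
  have hc1 : 0 ≤ c := by
    have : 0 ≤ C₁ * (1 + M) := by positivity
    linarith
  refine ⟨Real.exp c, Real.one_le_exp hc1, ?_⟩
  intro A K hA hK hAK _
  have hlK : 0 ≤ Real.log K := Real.log_nonneg hK
  obtain ⟨l, hl⟩ : ∃ l : ℝ, l = 1 + Real.log K := ⟨_, rfl⟩
  have hl1 : 1 ≤ l := by linarith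
  have hMl0 : 0 ≤ M * l := by positivity
  obtain ⟨k₀, hk₀⟩ : ∃ k₀ : ℕ, k₀ = ⌈(1 + M * l) ^ (a + 1)⌉₊ := ⟨_, rfl⟩
  have hpow1 : (1 : ℝ) ≤ (1 + M * l) ^ (a + 1) := Real.one_le_rpow (by linarith) (by linarith)
  have hk₀0 : (1 + M * l) ^ (a + 1) ≤ k₀ := by
    rw [hk₀]; exact Nat.le_ceil _
  have hk₀R : (1 : ℝ) ≤ k₀ := hpow1.trans hk₀0
  have hk₀1 : 1 ≤ k₀ := by exact_mod_cast hk₀R
  have hk₀2 : (k₀ : ℝ) ≤ 2 * (1 + M * l) ^ (a + 1) := by
    have := Nat.ceil_lt_add_one (by linarith : (0 : ℝ) ≤ (1 + M * l) ^ (a + 1))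
    rw [← hk₀] at this
    linarith
  obtain ⟨d, h, B, φ, F, X, h1, h2, h3, h4, h5, h6, h7, -, -, -, -⟩ :=
    H s k₀ A K hs1 hk₀1 hA hK hAK
  rw [← hl, ← hq₀] at h1 h5 h6
  have hvol := vol_exp hq1 hM1 hl1 hs1 hε (by linarith : 0 < a + 1) hs2 hqM
    (by exact_mod_cast hk₀1) hk₀2
  have hFne : F.Nonempty := by
    rw [Finset.nonempty_iff_ne_empty]
    intro h
    rw [h] at h5
    simp only [card_empty, Nat.cast_zero, mul_zero] at h5
    have : (0 : ℝ) < A.card := by exact_mod_cast hA.card_pos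
    linarith
  obtain ⟨f₀, hf₀⟩ := hFne
  -- the ellipsoid
  obtain ⟨N, hN, hNB, hsc⟩ := all_scales B h2
  obtain ⟨⟨G, hG, hGc⟩, -⟩ := hsc 1 one_pos
  rw [one_smul, one_smul] at hGc
  obtain ⟨piece, hpiece⟩ : ∃ piece : (Fin d → ℤ) → Finset ℤ, piece = fun z => F.filter
    (fun u => ∃ c ∈ pts B, u - f₀ = φ c ∧ c - z ∈ pts (Ell N)) := ⟨_, rfl⟩
  have hmem : ∀ z u, u ∈ piece z ↔ u ∈ F ∧ ∃ c ∈ pts B, u - f₀ = φ c ∧ c - z ∈ pts (Ell N) := by
    intro z u
    rw [hpiece]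
    exact Finset.mem_filter
  have hFsub : F ⊆ G.biUnion piece := by
    intro u hu
    obtain ⟨c', hc', e⟩ := h7 u hu f₀ hf₀
    obtain ⟨z, hz, hzc⟩ := hGc c' hc'
    exact Finset.mem_biUnion.2 ⟨z, hz, (hmem z u).2 ⟨hu, c', hc', e, hzc.2⟩⟩
  have hGne : G.Nonempty := by
    obtain ⟨z, hz, -⟩ := Finset.mem_biUnion.1 (hFsub hf₀)
    exact ⟨z, hz⟩
  obtain ⟨z₀, hz₀, hzmax⟩ := Finset.exists_max_image G (fun z => (piece z).card) hGne
  have hFF₁ : F.card ≤ G.card * (piece z₀).card := by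
    calc F.card ≤ (G.biUnion piece).card := Finset.card_le_card hFsub
      _ ≤ ∑ z ∈ G, (piece z).card := Finset.card_biUnion_le
      _ ≤ ∑ _z ∈ G, (piece z₀).card := Finset.sum_le_sum hzmax
      _ = G.card * (piece z₀).card := by rw [Finset.sum_const, smul_eq_mul]
  obtain ⟨F₁, hF₁⟩ : ∃ F₁, F₁ = piece z₀ := ⟨_, rfl⟩
  rw [← hF₁] at hFF₁
  have hF₁F : F₁ ⊆ F := by
    rw [hF₁]
    intro u hu
    exact ((hmem z₀ u).1 hu).1
  have h72 : (F.card : ℝ) ≤ Real.exp (5 * (q₀ * l)) * F₁.card := by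
    have e1 : (F.card : ℝ) ≤ G.card * F₁.card := by exact_mod_cast hFF₁
    have e2 : (G.card : ℝ) ≤ ((72 : ℕ) : ℝ) ^ d := by exact_mod_cast hG
    have e3 : ((72 : ℕ) : ℝ) ^ d ≤ Real.exp ((5 : ℕ) * (q₀ * l)) := pow_exp (by norm_num) d h1
    refine e1.trans (mul_le_mul_of_nonneg_right ?_ (Nat.cast_nonneg _))
    have := e2.trans e3
    simpa using this
  have hA₁ : (A.card : ℝ) ≤ Real.exp (q * l) * F₁.card := by
    calc (A.card : ℝ) ≤ Real.exp (q₀ * l) * F.card := h5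
      _ ≤ Real.exp (q₀ * l) * (Real.exp (5 * (q₀ * l)) * F₁.card) :=
          mul_le_mul_of_nonneg_left h72 (Real.exp_pos _).le
      _ = Real.exp (q * l) * F₁.card := by
          rw [← mul_assoc, ← Real.exp_add, hq]
          congr 2; ring
  have hF₁ne : F₁.Nonempty := by
    rw [Finset.nonempty_iff_ne_empty]
    intro h
    rw [h] at hA₁
    simp only [card_empty, Nat.cast_zero, mul_zero] at hA₁
    have : (0 : ℝ) < A.card := by exact_mod_cast hA.card_pos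
    linarith
  obtain ⟨f₁, hf₁⟩ : ∃ f₁, f₁ = f₀ + φ z₀ := ⟨_, rfl⟩
  set F' : Finset ℤ := F₁.image fun x => x - f₁ with hF'
  have hF'card : F'.card = F₁.card :=
    Finset.card_image_of_injective _ fun x y hxy => by
      have : x - f₁ = y - f₁ := hxy
      linarith
  obtain ⟨K₁, hK₁⟩ : ∃ K₁ : ℝ, K₁ = Real.exp (M * l) := ⟨_, rfl⟩
  have hK₁1 : 1 ≤ K₁ := by rw [hK₁]; exact Real.one_le_exp hMl0
  have hlogK₁ : Real.log K₁ = M * l := by rw [hK₁, Real.log_exp]
  have hMql : (1 + q) * l ≤ M * l := mul_le_mul_of_nonneg_right hMq (by linarith)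
  have hKA : K * (A.card : ℝ) ≤ Real.exp ((1 + q) * l) * F₁.card := by
    calc K * (A.card : ℝ) ≤ K * (Real.exp (q * l) * F₁.card) :=
          mul_le_mul_of_nonneg_left hA₁ (by linarith)
      _ = Real.exp (Real.log K + q * l) * F₁.card := by
          rw [Real.exp_add, Real.exp_log (by linarith)]; ring
      _ ≤ Real.exp ((1 + q) * l) * F₁.card := by
          apply mul_le_mul_of_nonneg_right _ (Nat.cast_nonneg _)
          apply Real.exp_le_exp.2
          have : (1 + q) * l = l + q * l := by ring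
          linarith
  have hF₁A : F₁ ⊆ A := hF₁F.trans h4
  have hdoub : ((F' + F').card : ℝ) ≤ K₁ * F'.card := by
    rw [hF'card, hF', card_translate_add]
    have e1 : ((F₁ + F₁).card : ℝ) ≤ (A + A).card := by
      exact_mod_cast Finset.card_le_card (Finset.add_subset_add hF₁A hF₁A)
    calc ((F₁ + F₁).card : ℝ) ≤ K * A.card := e1.trans hAK
      _ ≤ Real.exp ((1 + q) * l) * F₁.card := hKA
      _ ≤ K₁ * F₁.card := by
          apply mul_le_mul_of_nonneg_right _ (Nat.cast_nonneg _)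
          rw [hK₁]
          exact Real.exp_le_exp.2 hMql
  have hl0 : 0 < l := by linarith
  have hdM : (d : ℝ) ≤ 1 + M * l := by
    have e1 : q₀ * l ≤ M * l := mul_le_mul_of_nonneg_right (by linarith) hl0.le
    linarith
  have hdense : DenseInEll ε δ a K₁ F' := by
    have hb1 : (0 : ℝ) < 1 + M * l := by linarith
    have hpa : 0 < (1 + M * l) ^ a := Real.rpow_pos_of_pos hb1 _
    have hsub0 : ((1 + M * l) ^ a) • Ell N ⊆ (k₀ : ℝ) • B := by
      have e1 : ((1 + M * l) ^ a) • Ell N ⊆ ((1 + M * l) ^ a) • ((d : ℝ) • B) :=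
        Set.smul_set_mono hNB
      rw [smul_smul] at e1
      refine e1.trans (smul_mono h2 (by positivity) (by linarith) ?_)
      calc (1 + M * l) ^ a * d ≤ (1 + M * l) ^ a * (1 + M * l) :=
            mul_le_mul_of_nonneg_left hdM hpa.le
        _ = (1 + M * l) ^ (a + 1) := by rw [Real.rpow_add hb1, Real.rpow_one]
        _ ≤ k₀ := hk₀0
    have hsub : pts (((1 + M * l) ^ a) • Ell N) ⊆ pts ((k₀ : ℝ) • B) := fun c hc => hsub0 hc
    refine ⟨d, N, φ, ?_, hN, ?_, ?_, ?_⟩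
    · rw [hlogK₁]
      refine h1.trans ?_
      have e0 : q₀ * l ≤ q * l := mul_le_mul_of_nonneg_right (by linarith) hl0.le
      have e1 : q * l ≤ δ * M * l := mul_le_mul_of_nonneg_right hqM' (by linarith)
      have e2 : δ * (1 + M * l) = δ + δ * M * l := by ring
      linarith
    · rw [hlogK₁]
      exact h3.mono hsub
    · rw [hF'card, hlogK₁]
      have e1 : (pts (((1 + M * l) ^ a) • Ell N)).ncard ≤ (pts ((k₀ : ℝ) • B)).ncard :=
        Set.ncard_le_ncard hsub (pts_finite _ (h2.2.1.smul _).isBounded)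
      have e2 : ((pts (((1 + M * l) ^ a) • Ell N)).ncard : ℝ) ≤ (pts ((k₀ : ℝ) • B)).ncard := by
        exact_mod_cast e1
      have hZ : l ≤ (k₀ : ℝ) ^ (2 / s) * l ^ (1 + 1 / s) := by
        have z1 : (1 : ℝ) ≤ (k₀ : ℝ) ^ (2 / s) := Real.one_le_rpow hk₀R (by positivity)
        have z2 : l ≤ l ^ (1 + 1 / s) := by
          calc l = l ^ (1 : ℝ) := (Real.rpow_one l).symm
            _ ≤ l ^ (1 + 1 / s) := Real.rpow_le_rpow_of_exponent_le hl1 (by
                have : 0 < 1 / s := by positivity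
                linarith)
        calc l ≤ l ^ (1 + 1 / s) := z2
          _ = 1 * l ^ (1 + 1 / s) := (one_mul _).symm
          _ ≤ _ := mul_le_mul_of_nonneg_right z1 (by linarith)
      calc ((pts (((1 + M * l) ^ a) • Ell N)).ncard : ℝ)
          ≤ Real.exp (q₀ * ((k₀ : ℝ) ^ (2 / s) * l ^ (1 + 1 / s))) * F.card := e2.trans h6
        _ ≤ Real.exp (q₀ * ((k₀ : ℝ) ^ (2 / s) * l ^ (1 + 1 / s))) *
            (Real.exp (5 * (q₀ * l)) * F₁.card) :=
            mul_le_mul_of_nonneg_left h72 (Real.exp_pos _).le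
        _ = Real.exp (q₀ * ((k₀ : ℝ) ^ (2 / s) * l ^ (1 + 1 / s)) + 5 * (q₀ * l)) * F₁.card := by
            rw [← mul_assoc, ← Real.exp_add]
        _ ≤ Real.exp (q * ((k₀ : ℝ) ^ (2 / s) * l ^ (1 + 1 / s))) * F₁.card := by
            apply mul_le_mul_of_nonneg_right _ (Nat.cast_nonneg _)
            apply Real.exp_le_exp.2
            have z3 : q₀ * l ≤ q₀ * ((k₀ : ℝ) ^ (2 / s) * l ^ (1 + 1 / s)) :=
              mul_le_mul_of_nonneg_left hZ (by linarith)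
            rw [hq]
            linarith
        _ ≤ _ := mul_le_mul_of_nonneg_right (Real.exp_le_exp.2 hvol) (Nat.cast_nonneg _)
    · intro b hb
      obtain ⟨u, hu, rfl⟩ := mem_image.1 hb
      rw [hF₁] at hu
      obtain ⟨-, c', -, e, hc'⟩ := (hmem z₀ u).1 hu
      refine ⟨c' - z₀, hc', ?_⟩
      rw [map_sub, ← e, hf₁]
      ring
  obtain ⟨u₀, hu₀⟩ := hF₁ne
  obtain ⟨d', M', φ', T, g1, g2, g3, g4, g5⟩ :=
    H₁ F' K₁ ⟨_, mem_image_of_mem _ hu₀⟩ hK₁1 hdoub hdense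
  -- the covering lemma of Ruzsa
  have hcovA : ((A + F₁).card : ℝ) ≤ Real.exp ((1 + q) * l) * F₁.card := by
    have e1 : ((A + F₁).card : ℝ) ≤ (A + A).card := by
      exact_mod_cast Finset.card_le_card (Finset.add_subset_add_left hF₁A)
    exact (e1.trans hAK).trans hKA
  obtain ⟨X₁, -, h8, h9⟩ := Finset.ruzsa_covering_add ⟨u₀, hu₀⟩ hcovA
  obtain ⟨Y, hY1, hY2⟩ := diff_cover (Ell M') (ell_body M' g2)
  rw [hlogK₁] at g1
  have hMl : 1 + M * l ≤ (1 + M) * l := by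
    have : (1 + M) * l = l + M * l := by ring
    linarith
  have hd' : (d' : ℝ) ≤ C₁ * (1 + M) * l := by
    refine g1.trans ?_
    rw [mul_assoc]
    exact mul_le_mul_of_nonneg_left hMl (by linarith)
  -- the number of translates
  have hT : (T.card : ℝ) ≤ Real.exp ((C₁ + C₁ * M) * l) := by
    refine g4.trans ?_
    have e1 : K₁ ^ C₁ = Real.exp (C₁ * M * l) := by
      rw [Real.rpow_def_of_pos (by linarith), hlogK₁]
      congr 1; ring
    rw [e1]
    have e2 : C₁ ≤ Real.exp (C₁ * l) := by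
      have e3 := Real.add_one_le_exp (C₁ * l)
      have e4 : C₁ ≤ C₁ * l := le_mul_of_one_le_right (by linarith) hl1
      linarith
    calc C₁ * Real.exp (C₁ * M * l) ≤ Real.exp (C₁ * l) * Real.exp (C₁ * M * l) :=
          mul_le_mul_of_nonneg_right e2 (Real.exp_pos _).le
      _ = Real.exp ((C₁ + C₁ * M) * l) := by rw [← Real.exp_add]; congr 1; ring
  have hY : (Y.card : ℝ) ≤ Real.exp (2 * (C₁ * (1 + M)) * l) := by
    have e1 : (Y.card : ℝ) ≤ ((5 : ℕ) : ℝ) ^ d' := by exact_mod_cast hY1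
    refine (e1.trans (pow_exp (e := 2) (by norm_num) d' hd')).trans (le_of_eq ?_)
    congr 1
    push_cast
    ring
  set W : Finset ℤ := X₁ + ((T - T) + Y.image φ') with hW
  refine ⟨d', M', φ', W, ?_, g2, ?_, ?_, ?_⟩
  · rw [← hl]
    refine hd'.trans (mul_le_mul_of_nonneg_right (hc0.trans hcle) (by linarith))
  · have : F₁.card ≤ A.card := Finset.card_le_card hF₁A
    omega
  · have e1 : W.card ≤ X₁.card * ((T.card * T.card) * Y.card) := by
      refine Finset.card_add_le.trans (Nat.mul_le_mul_left _ ?_)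
      refine Finset.card_add_le.trans (Nat.mul_le_mul ?_ Finset.card_image_le)
      exact Finset.card_sub_le
    have e2 : (W.card : ℝ) ≤ X₁.card * ((T.card * T.card) * Y.card) := by exact_mod_cast e1
    refine (e2.trans ?_).trans (exp_poly hK)
    rw [← hl]
    calc (X₁.card : ℝ) * ((T.card * T.card) * Y.card) ≤
          Real.exp ((1 + q) * l) * ((Real.exp ((C₁ + C₁ * M) * l) * Real.exp ((C₁ + C₁ * M) * l)) *
            Real.exp (2 * (C₁ * (1 + M)) * l)) := by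
          refine mul_le_mul h8 ?_ (by positivity) (Real.exp_pos _).le
          refine mul_le_mul ?_ hY (Nat.cast_nonneg _) (by positivity)
          exact mul_le_mul hT hT (Nat.cast_nonneg _) (Real.exp_pos _).le
      _ = Real.exp (c * l) := by
          rw [← Real.exp_add, ← Real.exp_add, ← Real.exp_add, hc]
          congr 1; ring
  · intro b hb
    obtain ⟨x, hx, w', hw', rfl⟩ := Finset.mem_add.1 (h9 hb)
    obtain ⟨u, hu, v, hv, rfl⟩ := Finset.mem_sub.1 hw'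
    obtain ⟨t, ht, y, hy, e1⟩ := g5 (u - f₁) (mem_image_of_mem _ hu)
    obtain ⟨t', ht', y', hy', e2⟩ := g5 (v - f₁) (mem_image_of_mem _ hv)
    obtain ⟨w, hw, z, hz, e3⟩ := hY2 y hy y' hy'
    refine ⟨x + ((t - t') + φ' w), ?_, z, hz, ?_⟩
    · exact Finset.add_mem_add hx (Finset.add_mem_add (Finset.sub_mem_sub ht ht')
        (mem_image_of_mem _ hw))
    · have e4 : φ' y - φ' y' = φ' w + φ' z := by rw [← map_sub, e3, map_add]
      linarith

theorem normal_form' (ε δ a : ℝ) (hε : 0 < ε) (hδ : 0 < δ) (ha : 0 < a) :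
    PFREll (DenseInEll ε δ a) ↔ PFRFor fun _ _ => True := by
  rw [← ell_iff]
  refine ⟨normal_form ε δ a hε hδ ha, ?_⟩
  rintro ⟨C, hC, H⟩
  exact ⟨C, hC, fun A K hA hK hAK _ => H A K hA hK hAK trivial⟩

/-- One progression. -/
theorem convert {Γ : Type*} [AddCommGroup Γ] [DecidableEq Γ] {d : ℕ} (B : Set (Fin d → ℝ))
    (hB : Body B) : ∃ M : Matrix (Fin d) (Fin d) ℝ, M.det ≠ 0 ∧
      (pts (Ell M)).ncard ≤ (pts B).ncard ∧ ∀ φ : (Fin d → ℤ) →+ Γ, ∃ T : Finset Γ,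
        T.card ≤ 7464960 ^ d ∧ ∀ c ∈ pts B, ∃ t ∈ T, ∃ x ∈ pts (Ell M), φ c = t + φ x := by
  obtain ⟨M, hM, hcard, F, hF, hcov⟩ := normalised B hB
  refine ⟨M, hM, hcard, fun φ => ⟨F.image φ, Finset.card_image_le.trans hF, ?_⟩⟩
  intro c hc
  obtain ⟨x, hx, hcx⟩ := hcov c hc
  exact ⟨φ x, mem_image_of_mem _ hx, c - x, hcx, by rw [map_sub]; abel⟩

end Pool.Agent.P8H91.EL
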