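import Pool.Agent.P8H91.EL.Fin
import Pool.Agent.Y806.DF.C

/-!
# The gaussian form
-/

set_option autoImplicit false

namespace Pool.Agent.P8H91.EL

open Finset Pool.Agent.P8H91.GR Pool.Agent.P8H91.PV
open scoped Pointwise

/-- The quadratic form of the matrix `M` on integer vectors. -/
def qf {d : ℕ} (M : Matrix (Fin d) (Fin d) ℝ) (x : Fin d → ℤ) : ℝ :=
  ∑ i, (∑ j, M i j * x j) ^ 2

lemma qf_nonneg {d : ℕ} (M : Matrix (Fin d) (Fin d) ℝ) (x : Fin d → ℤ) : 0 ≤ qf M x :=
  Finset.sum_nonneg fun _ _ => sq_nonneg _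

lemma mem_ell_iff {d : ℕ} (M : Matrix (Fin d) (Fin d) ℝ) {t : ℝ} (ht : 0 < t)
    (x : Fin d → ℤ) : x ∈ pts (t • Ell M) ↔ qf M x ≤ t ^ 2 := by
  rw [ell_smul M ht]
  show ∑ i, (∑ j, (t⁻¹ • M) i j * (x j : ℝ)) ^ 2 ≤ 1 ↔ _
  have e : ∀ i, ∑ j, (t⁻¹ • M) i j * (x j : ℝ) = t⁻¹ * ∑ j, M i j * x j := by
    intro i
    rw [Finset.mul_sum]
    refine Finset.sum_congr rfl fun j _ => ?_
    rw [Matrix.smul_apply, smul_eq_mul]
    ring
  simp_rw [e, mul_pow]
  rw [← Finset.mul_sum, inv_pow, inv_mul_le_iff₀ (by positivity), mul_one]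
  rfl

lemma qf_smul {d : ℕ} (M : Matrix (Fin d) (Fin d) ℝ) (r : ℝ) (x : Fin d → ℤ) :
    qf (r • M) x = r ^ 2 * qf M x := by
  unfold qf
  rw [Finset.mul_sum]
  refine Finset.sum_congr rfl fun i _ => ?_
  rw [← mul_pow, Finset.mul_sum]
  congr 1
  refine Finset.sum_congr rfl fun j _ => ?_
  rw [Matrix.smul_apply, smul_eq_mul]
  ring

lemma qf_add_le {d : ℕ} (M : Matrix (Fin d) (Fin d) ℝ) (x y : Fin d → ℤ) :
    qf M (x + y) ≤ 2 * qf M x + 2 * qf M y := by
  unfold qf
  rw [Finset.mul_sum, Finset.mul_sum, ← Finset.sum_add_distrib]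
  refine Finset.sum_le_sum fun i _ => ?_
  have e : ∑ j, M i j * (((x + y) j : ℤ) : ℝ) = (∑ j, M i j * x j) + ∑ j, M i j * y j := by
    rw [← Finset.sum_add_distrib]
    refine Finset.sum_congr rfl fun j _ => ?_
    rw [Pi.add_apply]
    push_cast
    ring
  rw [e]
  nlinarith [sq_nonneg ((∑ j, M i j * (x j : ℝ)) - ∑ j, M i j * (y j : ℝ))]

/-- The sum of a gaussian over the integer points. -/
theorem theta_bound {d : ℕ} (M : Matrix (Fin d) (Fin d) ℝ) (hM : M.det ≠ 0)
    (F : Finset (Fin d → ℤ)) :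
    ∑ x ∈ F, Real.exp (-(2 * (d + 1) * qf M x)) ≤ 2 * 3 ^ d * (pts (Ell M)).ncard := by
  classical
  have hE := ell_body M hM
  set lev : (Fin d → ℤ) → ℕ := fun x => ⌊qf M x⌋₊ with hlev
  set N : ℕ := F.sup lev + 1 with hN
  have hmaps : ∀ x ∈ F, lev x ∈ Finset.range N := by
    intro x hx
    rw [Finset.mem_range, hN]
    exact Nat.lt_succ_of_le (Finset.le_sup (f := lev) hx)
  rw [← Finset.sum_fiberwise_of_maps_to hmaps]
  set n₀ : ℝ := ((pts (Ell M)).ncard : ℝ) with hn₀
  have hn₀0 : 0 ≤ n₀ := Nat.cast_nonneg _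
  have hlevel : ∀ m ∈ Finset.range N, ∑ x ∈ F with lev x = m,
      Real.exp (-(2 * (d + 1) * qf M x)) ≤ (3 ^ d * n₀) * (1 / 2) ^ m := by
    intro m _
    have hf : (pts (((m + 1 : ℕ) : ℝ) • Ell M)).Finite :=
      pts_finite _ (hE.2.1.smul _).isBounded
    have h1 : (F.filter fun x => lev x = m) ⊆ hf.toFinset := by
      intro x hx
      rw [Finset.mem_filter] at hx
      rw [Set.Finite.mem_toFinset, mem_ell_iff M (by positivity)]
      have h2 := Nat.lt_floor_add_one (qf M x)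
      have h3 : (⌊qf M x⌋₊ : ℝ) = m := by
        have : ⌊qf M x⌋₊ = m := hx.2
        rw [this]
      rw [h3] at h2
      push_cast
      have h4 : (0 : ℝ) ≤ m := Nat.cast_nonneg _
      nlinarith
    have h2 : ∀ x ∈ F.filter (fun x => lev x = m), Real.exp (-(2 * (d + 1) * qf M x)) ≤
        Real.exp (-(2 * (d + 1) * m)) := by
      intro x hx
      rw [Finset.mem_filter] at hx
      apply Real.exp_le_exp.2
      have h3 : (m : ℝ) ≤ qf M x := by
        have h4 := Nat.floor_le (qf_nonneg M x)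
        have : ⌊qf M x⌋₊ = m := hx.2
        rwa [this] at h4
      have h5 : (0 : ℝ) ≤ 2 * (d + 1) := by positivity
      have := mul_le_mul_of_nonneg_left h3 h5
      linarith
    have h3 : ((F.filter fun x => lev x = m).card : ℝ) ≤ (2 * m + 3) ^ d * n₀ := by
      have h4 : (F.filter fun x => lev x = m).card ≤ (pts (((m + 1 : ℕ) : ℝ) • Ell M)).ncard := by
        rw [Set.ncard_eq_toFinset_card _ hf]
        exact Finset.card_le_card h1
      have h5 := h4.trans (lat_growth (Ell M) hE (m + 1))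
      have h6 : ((F.filter fun x => lev x = m).card : ℝ) ≤
          ((2 * (m + 1) + 1) ^ d * (pts (Ell M)).ncard : ℕ) := by exact_mod_cast h5
      refine h6.trans (le_of_eq ?_)
      push_cast
      rw [hn₀]
      congr 2
      ring
    have h7 : Real.exp (-(2 * (d + 1) * m)) = Real.exp (-(2 * m)) ^ d * Real.exp (-(2 * m)) := by
      rw [← Real.exp_nat_mul, ← Real.exp_add]
      congr 1
      ring
    have h8 : Real.exp (-(2 * (m : ℝ))) ≤ (1 / 4) ^ m := by
      have e1 : Real.exp (-(2 * (m : ℝ))) = (Real.exp 1 ^ 2)⁻¹ ^ m := by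
        rw [← Real.exp_nat_mul, ← Real.exp_neg, ← Real.exp_nat_mul]
        congr 1
        push_cast
        ring
      rw [e1]
      refine pow_le_pow_left₀ (by positivity) ?_ m
      rw [one_div]
      apply inv_anti₀ (by norm_num)
      nlinarith [exp_one_lb]
    have h9 : (2 * (m : ℝ) + 3) * (1 / 4) ^ m ≤ 3 := by
      have e1 : (m : ℝ) + 1 ≤ 2 ^ m := by exact_mod_cast Nat.lt_two_pow_self (n := m)
      have e2 : (2 * (m : ℝ) + 3) ≤ 3 * 4 ^ m := by
        have e3 : (2 : ℝ) ^ m ≤ 4 ^ m := pow_le_pow_left₀ (by norm_num) (by norm_num) m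
        have e4 : (0 : ℝ) ≤ m := Nat.cast_nonneg _
        linarith
      have e5 : (4 : ℝ) ^ m * (1 / 4) ^ m = 1 := by rw [← mul_pow]; norm_num
      calc (2 * (m : ℝ) + 3) * (1 / 4) ^ m ≤ (3 * 4 ^ m) * (1 / 4) ^ m := by gcongr
        _ = 3 := by rw [mul_assoc, e5, mul_one]
    calc ∑ x ∈ F with lev x = m, Real.exp (-(2 * (d + 1) * qf M x))
        ≤ ∑ _x ∈ F.filter (fun x => lev x = m), Real.exp (-(2 * (d + 1) * m)) :=
          Finset.sum_le_sum h2
      _ = (F.filter fun x => lev x = m).card * Real.exp (-(2 * (d + 1) * m)) := by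
          rw [Finset.sum_const, nsmul_eq_mul]
      _ ≤ ((2 * m + 3) ^ d * n₀) * (Real.exp (-(2 * m)) ^ d * Real.exp (-(2 * m))) := by
          rw [h7]
          exact mul_le_mul_of_nonneg_right h3 (by positivity)
      _ ≤ ((2 * m + 3) ^ d * n₀) * (((1 / 4) ^ m) ^ d * (1 / 2) ^ m) := by
          have e1 : ((1 : ℝ) / 4) ^ m ≤ (1 / 2) ^ m :=
            pow_le_pow_left₀ (by norm_num) (by norm_num) m
          have e2 := h8.trans e1
          gcongr
      _ = (((2 * m + 3) * (1 / 4) ^ m) ^ d * n₀) * (1 / 2) ^ m := by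
          rw [mul_pow]; ring
      _ ≤ (3 ^ d * n₀) * (1 / 2) ^ m := by gcongr
  calc ∑ m ∈ Finset.range N, ∑ x ∈ F with lev x = m, Real.exp (-(2 * (d + 1) * qf M x))
      ≤ ∑ m ∈ Finset.range N, (3 ^ d * n₀) * (1 / 2) ^ m := Finset.sum_le_sum hlevel
    _ = (3 ^ d * n₀) * ∑ m ∈ Finset.range N, (1 / 2) ^ m := by rw [Finset.mul_sum]
    _ ≤ (3 ^ d * n₀) * 2 := by
        gcongr
        exact sum_geometric_two_le N
    _ = _ := by ring

/-- **A gaussian of any dimension.** -/
theorem of_gaussian (A : Finset ℤ) (hA : A.Nonempty) (K L : ℝ) (hK1 : 1 ≤ K) (hL1 : 1 ≤ L)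
    (hK : ((A + A).card : ℝ) ≤ K * A.card) {d : ℕ} (M : Matrix (Fin d) (Fin d) ℝ)
    (hM : M.det ≠ 0) (φ : (Fin d → ℤ) →+ ℤ) (t : ℤ) (S : Finset (Fin d → ℤ))
    (hsum : ∀ F : Finset (Fin d → ℤ), ∑ x ∈ F, Real.exp (-qf M x) ≤ L * A.card)
    (hinj : Set.InjOn φ S) (hSA : ∀ x ∈ S, t + φ x ∈ A)
    (hcor : (A.card : ℝ) ≤ L * ∑ x ∈ S, Real.exp (-qf M x)) :
    ∃ (r : ℕ) (B : Set (Fin r → ℝ)) (θ : (Fin r → ℤ) →+ ℤ) (T : Finset ℤ),
      (r : ℝ) ≤ 500 * Real.log (64 * K * L ^ 6) ∧ Body B ∧ (pts B).ncard ≤ A.card ∧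
      (T.card : ℝ) ≤ 5000 * (32 * K * L ^ 6) ^ 5000 ∧
      ∀ a ∈ A, ∃ t ∈ T, ∃ c ∈ pts B, a = t + θ c := by
  classical
  have hAr : (0 : ℝ) < A.card := by exact_mod_cast hA.card_pos
  have hL0 : 0 < L := by linarith
  set ρ : ℝ := Real.log (2 * L) with hρ
  have hρ0 : 0 < ρ := Real.log_pos (by linarith)
  have hexp : Real.exp ρ = 2 * L := Real.exp_log (by linarith)
  have hE := ell_body M hM
  have hr0 : 0 < Real.sqrt ρ := Real.sqrt_pos.2 hρ0
  have hr2 : Real.sqrt ρ ^ 2 = ρ := Real.sq_sqrt hρ0.le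
  have hXfin : (pts (Real.sqrt ρ • Ell M)).Finite := pts_finite _ (hE.2.1.smul _).isBounded
  set X : Finset (Fin d → ℤ) := hXfin.toFinset with hX
  have hmemX : ∀ x, x ∈ X ↔ qf M x ≤ ρ := by
    intro x
    rw [hX, Set.Finite.mem_toFinset, mem_ell_iff M hr0, hr2]
  -- the number of points with small value of the form
  have hcount : ∀ (F : Finset (Fin d → ℤ)) (u : ℝ), (∀ x ∈ F, qf M x ≤ u) →
      (F.card : ℝ) ≤ Real.exp u * (L * A.card) := by
    intro F u hF
    have h1 : (F.card : ℝ) * Real.exp (-u) ≤ ∑ x ∈ F, Real.exp (-qf M x) := by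
      rw [← nsmul_eq_mul, ← Finset.sum_const]
      exact Finset.sum_le_sum fun x hx => Real.exp_le_exp.2 (neg_le_neg (hF x hx))
    have h2 := h1.trans (hsum F)
    have h3 : Real.exp (-u) * Real.exp u = 1 := by rw [← Real.exp_add]; simp
    calc (F.card : ℝ) = (F.card * Real.exp (-u)) * Real.exp u := by rw [mul_assoc, h3, mul_one]
      _ ≤ (L * A.card) * Real.exp u := mul_le_mul_of_nonneg_right h2 (Real.exp_pos _).le
      _ = _ := by ring
  -- the part of `S`
  set S' : Finset (Fin d → ℤ) := S.filter fun x => qf M x ≤ ρ with hS'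
  have hSc : (S.card : ℝ) ≤ A.card := by
    have : S.card ≤ A.card := Finset.card_le_card_of_injOn (fun x => t + φ x)
      (fun x hx => hSA x hx) fun x hx y hy hxy => hinj hx hy (add_left_cancel hxy)
    exact_mod_cast this
  have hA2 : (A.card : ℝ) ≤ 2 * L * S'.card := by
    have h1 : ∑ x ∈ S, Real.exp (-qf M x) ≤ S'.card + S.card * (1 / (2 * L)) := by
      rw [← Finset.sum_filter_add_sum_filter_not S (fun x => qf M x ≤ ρ)]
      refine add_le_add ?_ ?_
      · calc ∑ x ∈ S with qf M x ≤ ρ, Real.exp (-qf M x) ≤ ∑ _x ∈ S', (1 : ℝ) := by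
              refine Finset.sum_le_sum fun x _ => ?_
              rw [Real.exp_le_one_iff]
              linarith [qf_nonneg M x]
          _ = S'.card := by simp
      · calc ∑ x ∈ S with ¬ qf M x ≤ ρ, Real.exp (-qf M x)
            ≤ ∑ _x ∈ S.filter (fun x => ¬ qf M x ≤ ρ), 1 / (2 * L) := by
              refine Finset.sum_le_sum fun x hx => ?_
              rw [Finset.mem_filter] at hx
              rw [← hexp, one_div, ← Real.exp_neg]
              apply Real.exp_le_exp.2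
              linarith [not_le.1 hx.2]
          _ = (S.filter fun x => ¬ qf M x ≤ ρ).card * (1 / (2 * L)) := by
              rw [Finset.sum_const, nsmul_eq_mul]
          _ ≤ S.card * (1 / (2 * L)) := by
              gcongr
              exact Finset.filter_subset _ _
    have h2 : (A.card : ℝ) ≤ L * (S'.card + A.card * (1 / (2 * L))) := by
      refine hcor.trans (mul_le_mul_of_nonneg_left (h1.trans ?_) hL0.le)
      gcongr
    have h3 : L * (S'.card + A.card * (1 / (2 * L))) = L * S'.card + A.card / 2 := by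
      field_simp
    rw [h3] at h2
    linarith
  have hS'X : S' ⊆ X := by
    intro x hx
    rw [hS', Finset.mem_filter] at hx
    exact (hmemX x).2 hx.2
  have hS'0 : (0 : ℝ) < S'.card := by
    by_contra hcon
    push Not at hcon
    have : 2 * L * (S'.card : ℝ) ≤ 0 := mul_nonpos_of_nonneg_of_nonpos (by linarith) hcon
    linarith
  have hAX : (A.card : ℝ) ≤ 2 * L * X.card := by
    have : (S'.card : ℝ) ≤ X.card := by exact_mod_cast Finset.card_le_card hS'X
    exact hA2.trans (mul_le_mul_of_nonneg_left this (by linarith))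
  have hL6 : 1 ≤ L ^ 6 := one_le_pow₀ hL1
  have hKL : 1 ≤ K * L ^ 6 := by nlinarith
  set K' : ℝ := 32 * K * L ^ 6 with hK'
  have hK'K : K ≤ K' := by
    rw [hK']
    nlinarith
  have hdata : Pool.Agent.Y806.DF.Data K' A X φ ⊥ t := by
    refine ⟨?_, inferInstance, ?_, ?_, ?_, ?_⟩
    · have : 0 < S'.card := by exact_mod_cast hS'0
      exact (Finset.card_pos.1 this).mono hS'X
    · have h1 := hcount (X + X) (4 * ρ) (by
        intro x hx
        obtain ⟨y, hy, z, hz, rfl⟩ := Finset.mem_add.1 hx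
        have h2 := (hmemX y).1 hy
        have h3 := (hmemX z).1 hz
        have := qf_add_le M y z
        linarith)
      have e1 : Real.exp (4 * ρ) = (2 * L) ^ 4 := by
        rw [← hexp, ← Real.exp_nat_mul]; norm_num
      rw [e1] at h1
      calc ((X + X).card : ℝ) ≤ (2 * L) ^ 4 * (L * A.card) := h1
        _ ≤ (2 * L) ^ 4 * (L * (2 * L * X.card)) := by gcongr
        _ = 32 * L ^ 6 * X.card := by ring
        _ ≤ 32 * K * L ^ 6 * X.card := by
            have : 32 * L ^ 6 ≤ 32 * K * L ^ 6 := by nlinarith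
            exact mul_le_mul_of_nonneg_right this (Nat.cast_nonneg _)
    · have h1 : Pool.Agent.Y806.DF.hull X ⊆ (X : Set (Fin d → ℤ)) := by
        intro x hx
        rw [Finset.mem_coe, hX, Set.Finite.mem_toFinset]
        have hconv : Convex ℝ (Real.sqrt ρ • Ell M) := hE.1.smul _
        have h2 : convexHull ℝ (Pool.Agent.Y806.DF.re '' (X : Set (Fin d → ℤ))) ⊆
            Real.sqrt ρ • Ell M := by
          refine convexHull_min ?_ hconv
          rintro _ ⟨y, hy, rfl⟩
          rw [Finset.mem_coe, hX, Set.Finite.mem_toFinset] at hy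
          exact hy
        exact h2 hx
      have h3 : (Pool.Agent.Y806.DF.hull X).ncard ≤ X.card := by
        have := Set.ncard_le_ncard h1 X.finite_toSet
        rwa [Set.ncard_coe_finset] at this
      have h4 : ((Pool.Agent.Y806.DF.hull X).ncard : ℝ) ≤ X.card := by exact_mod_cast h3
      have h5 : 1 ≤ K' := hK1.trans hK'K
      exact h4.trans (le_mul_of_one_le_left (Nat.cast_nonneg _) h5)
    · have h1 := hcount X ρ fun x hx => (hmemX x).1 hx
      rw [hexp] at h1
      have e1 : (Nat.card (⊥ : AddSubgroup ℤ) : ℝ) = 1 := by simp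
      rw [e1, mul_one]
      refine h1.trans ?_
      have h2 : 2 * L * L ≤ K' := by
        rw [hK']
        have h3 : L ^ 2 ≤ L ^ 6 := pow_le_pow_right₀ hL1 (by norm_num)
        nlinarith
      calc 2 * L * (L * A.card) = (2 * L * L) * A.card := by ring
        _ ≤ K' * A.card := mul_le_mul_of_nonneg_right h2 hAr.le
    · have hfinset : {a : ℤ | a ∈ A ∧ ∃ x ∈ X, ∃ h ∈ (⊥ : AddSubgroup ℤ), a = t + φ x + h}.Finite :=
        A.finite_toSet.subset fun a ha => ha.1
      have h1 : (S'.card : ℝ) ≤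
          ({a : ℤ | a ∈ A ∧ ∃ x ∈ X, ∃ h ∈ (⊥ : AddSubgroup ℤ), a = t + φ x + h}.ncard : ℝ) := by
        have h2 : (S' : Set (Fin d → ℤ)).ncard ≤
            {a : ℤ | a ∈ A ∧ ∃ x ∈ X, ∃ h ∈ (⊥ : AddSubgroup ℤ), a = t + φ x + h}.ncard := by
          refine Set.ncard_le_ncard_of_injOn (fun x => t + φ x) ?_ ?_ hfinset
          · intro x hx
            rw [Finset.mem_coe] at hx
            have hxS : x ∈ S := (Finset.mem_filter.1 hx).1
            exact ⟨hSA x hxS, x, hS'X hx, 0, AddSubgroup.zero_mem _, by simp⟩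
          · intro x hx y hy hxy
            rw [Finset.mem_coe] at hx hy
            exact hinj (Finset.mem_filter.1 hx).1 (Finset.mem_filter.1 hy).1
              (add_left_cancel hxy)
        rw [Set.ncard_coe_finset] at h2
        exact_mod_cast h2
      have h2 : 2 * L ≤ K' := by
        rw [hK']
        have h3 : L ^ 1 ≤ L ^ 6 := pow_le_pow_right₀ hL1 (by norm_num)
        rw [pow_one] at h3
        nlinarith
      calc (A.card : ℝ) ≤ 2 * L * S'.card := hA2
        _ ≤ K' * S'.card := mul_le_mul_of_nonneg_right h2 (Nat.cast_nonneg _)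
        _ ≤ _ := mul_le_mul_of_nonneg_left h1 (by linarith)
  obtain ⟨r, B, θ, H', T, h1, h2, h3, h4, h5, h6⟩ := Pool.Agent.Y806.DF.main hA
    (hK.trans (mul_le_mul_of_nonneg_right hK'K hAr.le)) hdata
  have hH0 : ∀ h ∈ H', h = 0 := by
    intro h hh
    have e1 : Nat.card H' • (⟨h, hh⟩ : H') = 0 := card_nsmul_eq_zero'
    have e2 : Nat.card H' • h = 0 := by
      have e3 := congrArg H'.subtype e1
      rw [map_nsmul, map_zero] at e3
      exact e3
    rw [nsmul_eq_mul] at e2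
    rcases mul_eq_zero.1 e2 with e3 | e3
    · have e4 : Nat.card H' ≠ 0 := Nat.card_pos.ne'
      exact absurd (by exact_mod_cast e3) e4
    · exact e3
  refine ⟨r, B, θ, T, ?_, h2, ?_, h5, ?_⟩
  · refine h1.trans (le_of_eq ?_)
    rw [hK']
    congr 2
    ring
  · have : 1 ≤ Nat.card H' := Nat.card_pos
    calc (pts B).ncard = (pts B).ncard * 1 := (mul_one _).symm
      _ ≤ (pts B).ncard * Nat.card H' := Nat.mul_le_mul_left _ this
      _ ≤ A.card := h4
  · intro a ha
    obtain ⟨t', ht', x, hx, h, hh, e⟩ := h6 a ha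
    exact ⟨t', ht', x, hx, by rw [e, hH0 h hh, add_zero]⟩

end Pool.Agent.P8H91.EL
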