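import Pool.Agent.P8H91.EL.Gau

/-!
# The gaussian form, equivalence
-/

set_option autoImplicit false

namespace Pool.Agent.P8H91.EL

open Finset Pool.Agent.P8H91.GR Pool.Agent.P8H91.PV
open scoped Pointwise

/-- Each `A` of the class correlates with a gaussian on some `ℤ ^ d`. -/
def GaussFor (P : ℝ → Finset ℤ → Prop) : Prop :=
  ∃ C : ℝ, 1 ≤ C ∧ ∀ (A : Finset ℤ) (K : ℝ), A.Nonempty → 1 ≤ K →
    ((A + A).card : ℝ) ≤ K * A.card → P K A →
    ∃ (d : ℕ) (M : Matrix (Fin d) (Fin d) ℝ) (φ : (Fin d → ℤ) →+ ℤ) (t : ℤ)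
      (S : Finset (Fin d → ℤ)), M.det ≠ 0 ∧
      (∀ F : Finset (Fin d → ℤ), ∑ x ∈ F, Real.exp (-qf M x) ≤ C * K ^ C * A.card) ∧
      Set.InjOn φ S ∧ (∀ x ∈ S, t + φ x ∈ A) ∧
      (A.card : ℝ) ≤ C * K ^ C * ∑ x ∈ S, Real.exp (-qf M x)

lemma CK_exp {C K : ℝ} (hC : 1 ≤ C) (hK : 1 ≤ K) :
    C * K ^ C ≤ Real.exp (C * (1 + Real.log K)) := by
  have e6 : C ≤ Real.exp C := by
    have := Real.add_one_le_exp C
    linarith
  have e7 : K ^ C = Real.exp (C * Real.log K) := by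
    rw [Real.rpow_def_of_pos (by linarith)]
    congr 1; ring
  rw [e7, mul_add, mul_one, Real.exp_add]
  exact mul_le_mul_of_nonneg_right e6 (Real.exp_pos _).le

lemma num_exp {b : ℝ} {e : ℕ} (h : b ≤ 2.7 ^ e) : b ≤ Real.exp e := by
  have e1 : Real.exp (e : ℝ) = Real.exp 1 ^ e := by rw [← Real.exp_nat_mul, mul_one]
  rw [e1]
  exact h.trans (pow_le_pow_left₀ (by norm_num) exp_one_lb e)

theorem gauss_of_ell (P : ℝ → Finset ℤ → Prop) (H : PFREll P) : GaussFor P := by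
  classical
  obtain ⟨C, hC, H⟩ := H
  have hC0 : 0 ≤ C := by linarith
  refine ⟨Real.exp (3 * C + 2), Real.one_le_exp (by linarith), fun A K hA hK hAK hP => ?_⟩
  obtain ⟨d, M, φ, T, h1, h2, h3, h4, h5⟩ := H A K hA hK hAK hP
  have hlK : 0 ≤ Real.log K := Real.log_nonneg hK
  obtain ⟨l, hl⟩ : ∃ l : ℝ, l = 1 + Real.log K := ⟨_, rfl⟩
  have hl1 : 1 ≤ l := by linarith
  have hCK := CK_exp hC hK
  have hpoly := exp_poly (c := 3 * C + 2) hK
  rw [← hl] at h1 hCK hpoly
  have hAr : (0 : ℝ) < A.card := by exact_mod_cast hA.card_pos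
  -- a translate
  obtain ⟨piece, hpiece⟩ : ∃ piece : ℤ → Finset ℤ, piece = fun t => A.filter
    (fun a => ∃ c ∈ pts (Ell M), a = t + φ c) := ⟨_, rfl⟩
  have hmem : ∀ t a, a ∈ piece t ↔ a ∈ A ∧ ∃ c ∈ pts (Ell M), a = t + φ c := by
    intro t a
    rw [hpiece]
    exact Finset.mem_filter
  have hsub : A ⊆ T.biUnion piece := by
    intro a ha
    obtain ⟨t, ht, c, hc, e⟩ := h5 a ha
    exact Finset.mem_biUnion.2 ⟨t, ht, (hmem t a).2 ⟨ha, c, hc, e⟩⟩
  have hTne : T.Nonempty := by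
    obtain ⟨a, ha⟩ := hA
    obtain ⟨t, ht, -⟩ := Finset.mem_biUnion.1 (hsub ha)
    exact ⟨t, ht⟩
  obtain ⟨t₀, ht₀, hmax⟩ := Finset.exists_max_image T (fun t => (piece t).card) hTne
  have hcard : A.card ≤ T.card * (piece t₀).card := by
    calc A.card ≤ (T.biUnion piece).card := Finset.card_le_card hsub
      _ ≤ ∑ t ∈ T, (piece t).card := Finset.card_biUnion_le
      _ ≤ ∑ _t ∈ T, (piece t₀).card := Finset.sum_le_sum hmax
      _ = T.card * (piece t₀).card := by rw [Finset.sum_const, smul_eq_mul]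
  -- lifts
  have hch : ∀ a : ℤ, ∃ c : Fin d → ℤ, a ∈ piece t₀ → c ∈ pts (Ell M) ∧ a = t₀ + φ c := by
    intro a
    by_cases ha : a ∈ piece t₀
    · obtain ⟨-, c, hc, e⟩ := (hmem t₀ a).1 ha
      exact ⟨c, fun _ => ⟨hc, e⟩⟩
    · exact ⟨0, fun h => absurd h ha⟩
  choose g hg using hch
  set S : Finset (Fin d → ℤ) := (piece t₀).image g with hS
  have hSc : S.card = (piece t₀).card := by
    refine Finset.card_image_of_injOn fun a ha b hb hab => ?_
    have e1 := (hg a (Finset.mem_coe.1 ha)).2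
    have e2 := (hg b (Finset.mem_coe.1 hb)).2
    have hab' : g a = g b := hab
    rw [e1, e2, hab']
  set r : ℝ := Real.sqrt (2 * (d + 1)) with hr
  have hr0 : 0 < r := Real.sqrt_pos.2 (by positivity)
  have hr2 : r ^ 2 = 2 * (d + 1) := Real.sq_sqrt (by positivity)
  have hq : ∀ x, qf (r • M) x = 2 * (d + 1) * qf M x := by
    intro x
    rw [qf_smul, hr2]
  have hd0 : (0 : ℝ) ≤ d := Nat.cast_nonneg _
  have hCl : 0 ≤ C * l := by positivity
  refine ⟨d, r • M, φ, t₀, S, ?_, ?_, ?_, ?_, ?_⟩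
  · rw [Matrix.det_smul]
    exact mul_ne_zero (pow_ne_zero _ hr0.ne') h2
  · intro F
    have e1 := theta_bound M h2 F
    simp_rw [hq]
    have e2 : ((pts (Ell M)).ncard : ℝ) ≤ A.card := by exact_mod_cast h3
    have e3 : ((3 : ℕ) : ℝ) ^ d ≤ Real.exp ((2 : ℕ) * (C * l)) := pow_exp (by norm_num) d h1
    have e4 : (2 : ℝ) ≤ Real.exp ((1 : ℕ) : ℝ) := num_exp (by norm_num)
    have e5 : (2 : ℝ) * 3 ^ d ≤ Real.exp ((3 * C + 2) * l) := by
      calc (2 : ℝ) * 3 ^ d ≤ Real.exp ((1 : ℕ) : ℝ) * Real.exp ((2 : ℕ) * (C * l)) := by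
            have : (3 : ℝ) ^ d ≤ Real.exp ((2 : ℕ) * (C * l)) := by simpa using e3
            exact mul_le_mul e4 this (by positivity) (Real.exp_pos _).le
        _ ≤ Real.exp ((3 * C + 2) * l) := by
            rw [← Real.exp_add]
            apply Real.exp_le_exp.2
            push_cast
            have : (3 * C + 2) * l = 2 * (C * l) + C * l + 2 * l := by ring
            linarith
    calc ∑ x ∈ F, Real.exp (-(2 * (d + 1) * qf M x)) ≤ 2 * 3 ^ d * (pts (Ell M)).ncard := e1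
      _ ≤ (Real.exp (3 * C + 2) * K ^ Real.exp (3 * C + 2)) * A.card :=
          mul_le_mul (e5.trans hpoly) e2 (Nat.cast_nonneg _) (by positivity)
  · intro x hx y hy hxy
    rw [Finset.mem_coe, hS, Finset.mem_image] at hx hy
    obtain ⟨a, ha, rfl⟩ := hx
    obtain ⟨b, hb, rfl⟩ := hy
    have e1 := (hg a ha).2
    have e2 := (hg b hb).2
    have : a = b := by rw [e1, e2, hxy]
    rw [this]
  · intro x hx
    rw [hS, Finset.mem_image] at hx
    obtain ⟨a, ha, rfl⟩ := hx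
    rw [← (hg a ha).2]
    exact ((hmem t₀ a).1 ha).1
  · have e1 : (S.card : ℝ) * Real.exp (-(2 * (d + 1))) ≤ ∑ x ∈ S, Real.exp (-qf (r • M) x) := by
      rw [← nsmul_eq_mul, ← Finset.sum_const]
      refine Finset.sum_le_sum fun x hx => Real.exp_le_exp.2 (neg_le_neg ?_)
      rw [hS, Finset.mem_image] at hx
      obtain ⟨a, ha, rfl⟩ := hx
      have e2 : qf M (g a) ≤ 1 := (hg a ha).1
      rw [hq]
      calc 2 * ((d : ℝ) + 1) * qf M (g a) ≤ 2 * (d + 1) * 1 := by gcongr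
        _ = _ := mul_one _
    have e3 : (A.card : ℝ) ≤ T.card * S.card := by rw [hSc]; exact_mod_cast hcard
    have e4 : (S.card : ℝ) ≤ Real.exp (2 * (d + 1)) * ∑ x ∈ S, Real.exp (-qf (r • M) x) := by
      have e5 : Real.exp (-(2 * ((d : ℝ) + 1))) * Real.exp (2 * (d + 1)) = 1 := by
        rw [← Real.exp_add]; simp
      calc (S.card : ℝ) = Real.exp (2 * (d + 1)) * (S.card * Real.exp (-(2 * (d + 1)))) := by
            calc (S.card : ℝ) = S.card * (Real.exp (-(2 * ((d : ℝ) + 1))) *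
                Real.exp (2 * (d + 1))) := by rw [e5, mul_one]
              _ = _ := by ring
        _ ≤ _ := mul_le_mul_of_nonneg_left e1 (Real.exp_pos _).le
    have hsum0 : 0 ≤ ∑ x ∈ S, Real.exp (-qf (r • M) x) :=
      Finset.sum_nonneg fun x _ => (Real.exp_pos _).le
    calc (A.card : ℝ) ≤ T.card * S.card := e3
      _ ≤ Real.exp (C * l) * (Real.exp (2 * (d + 1)) * ∑ x ∈ S, Real.exp (-qf (r • M) x)) :=
          mul_le_mul (h4.trans hCK) e4 (Nat.cast_nonneg _) (Real.exp_pos _).le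
      _ = Real.exp (C * l + 2 * (d + 1)) * ∑ x ∈ S, Real.exp (-qf (r • M) x) := by
          rw [← mul_assoc, ← Real.exp_add]
      _ ≤ Real.exp ((3 * C + 2) * l) * ∑ x ∈ S, Real.exp (-qf (r • M) x) := by
          apply mul_le_mul_of_nonneg_right _ hsum0
          apply Real.exp_le_exp.2
          have : (3 * C + 2) * l = C * l + 2 * (C * l) + 2 * l := by ring
          linarith
      _ ≤ _ := mul_le_mul_of_nonneg_right hpoly hsum0

theorem pfr_of_gauss (P : ℝ → Finset ℤ → Prop) (H : GaussFor P) : PFRFor P := by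
  obtain ⟨C₀, hC₀, H⟩ := H
  obtain ⟨c, hc⟩ : ∃ c : ℝ, c = 9 + 5000 * (5 + 6 * C₀) := ⟨_, rfl⟩
  refine ⟨Real.exp c, Real.one_le_exp (by rw [hc]; linarith), fun A K hA hK hAK hP => ?_⟩
  obtain ⟨d, M, φ, t, S, h1, h2, h3, h4, h5⟩ := H A K hA hK hAK hP
  have hlK : 0 ≤ Real.log K := Real.log_nonneg hK
  obtain ⟨l, hl⟩ : ∃ l : ℝ, l = 1 + Real.log K := ⟨_, rfl⟩
  have hl1 : 1 ≤ l := by linarith
  obtain ⟨L, hL⟩ : ∃ L : ℝ, L = C₀ * K ^ C₀ := ⟨_, rfl⟩
  have hL1 : 1 ≤ L := by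
    rw [hL]
    have : 1 ≤ K ^ C₀ := Real.one_le_rpow hK (by linarith)
    nlinarith
  have hLe : L ≤ Real.exp (C₀ * l) := by
    rw [hL, hl]
    exact CK_exp hC₀ hK
  rw [← hL] at h2 h5
  obtain ⟨r, B, θ, T, g1, g2, g3, g4, g5⟩ :=
    of_gaussian A hA K L hK hL1 hAK M h1 φ t S h2 h3 h4 h5
  have hKe : K ≤ Real.exp l := by
    rw [hl, Real.exp_add, Real.exp_log (by linarith)]
    have : (1 : ℝ) ≤ Real.exp 1 := Real.one_le_exp (by norm_num)
    nlinarith
  have hprod : ∀ (b : ℝ) (e : ℕ), 0 ≤ b → b ≤ 2.7 ^ e →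
      b * K * L ^ 6 ≤ Real.exp ((e + 1 + 6 * C₀) * l) := by
    intro b e hb hbe
    have e1 : L ^ 6 ≤ Real.exp (6 * (C₀ * l)) := by
      calc L ^ 6 ≤ Real.exp (C₀ * l) ^ 6 := pow_le_pow_left₀ (by linarith) hLe 6
        _ = _ := by rw [← Real.exp_nat_mul]; norm_num
    have e2 : b ≤ Real.exp (e * l) := by
      refine (num_exp hbe).trans (Real.exp_le_exp.2 ?_)
      exact le_mul_of_one_le_right (Nat.cast_nonneg _) hl1
    calc b * K * L ^ 6 ≤ Real.exp (e * l) * Real.exp l * Real.exp (6 * (C₀ * l)) := by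
          refine mul_le_mul (mul_le_mul e2 hKe (by linarith) (Real.exp_pos _).le) e1
            (by positivity) (by positivity)
      _ = _ := by
          rw [← Real.exp_add, ← Real.exp_add]
          congr 1; ring
  have hpos : ∀ b : ℝ, 0 < b → 0 < b * K * L ^ 6 := by
    intro b hb
    have : 0 < K := by linarith
    have : 0 < L := by linarith
    positivity
  refine ⟨r, B, θ, T, ?_, g2, g3, ?_, g5⟩
  · rw [← hl]
    refine g1.trans ?_
    have e1 := hprod 64 5 (by norm_num) (by norm_num)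
    have e2 : Real.log (64 * K * L ^ 6) ≤ (((5 : ℕ) : ℝ) + 1 + 6 * C₀) * l := by
      have := Real.log_le_log (hpos 64 (by norm_num)) e1
      rwa [Real.log_exp] at this
    have e3 : c ≤ Real.exp c := by
      have := Real.add_one_le_exp c
      linarith
    calc 500 * Real.log (64 * K * L ^ 6) ≤ 500 * ((((5 : ℕ) : ℝ) + 1 + 6 * C₀) * l) := by gcongr
      _ = (500 * (6 + 6 * C₀)) * l := by push_cast; ring
      _ ≤ c * l := by
          apply mul_le_mul_of_nonneg_right _ (by linarith)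
          rw [hc]
          linarith
      _ ≤ Real.exp c * l := mul_le_mul_of_nonneg_right e3 (by linarith)
  · have e1 := hprod 32 4 (by norm_num) (by norm_num)
    have e2 : (32 * K * L ^ 6) ^ 5000 ≤ Real.exp (5000 * ((5 + 6 * C₀) * l)) := by
      calc (32 * K * L ^ 6) ^ 5000 ≤ Real.exp ((((4 : ℕ) : ℝ) + 1 + 6 * C₀) * l) ^ 5000 :=
            pow_le_pow_left₀ (hpos 32 (by norm_num)).le e1 5000
        _ = _ := by
            rw [← Real.exp_nat_mul]
            congr 1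
            push_cast
            ring
    have e3 : (5000 : ℝ) ≤ Real.exp (9 * l) := by
      have e4 : (5000 : ℝ) ≤ Real.exp ((9 : ℕ) : ℝ) := num_exp (by norm_num)
      refine e4.trans (Real.exp_le_exp.2 ?_)
      push_cast
      linarith
    refine (g4.trans ?_).trans (exp_poly hK)
    rw [← hl]
    calc 5000 * (32 * K * L ^ 6) ^ 5000 ≤
          Real.exp (9 * l) * Real.exp (5000 * ((5 + 6 * C₀) * l)) :=
          mul_le_mul e3 e2 (pow_nonneg (hpos 32 (by norm_num)).le _) (Real.exp_pos _).le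
      _ = Real.exp (c * l) := by
          rw [← Real.exp_add, hc]
          congr 1; ring

theorem gauss_iff (P : ℝ → Finset ℤ → Prop) : GaussFor P ↔ PFRFor P :=
  ⟨pfr_of_gauss P, fun h => gauss_of_ell P ((ell_iff P).2 h)⟩

end Pool.Agent.P8H91.EL
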