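import Pool.Agent.P8H91.GR.Lat

/-!
# Covering lattice points of a body by those of a smaller body
-/

set_option autoImplicit false

namespace Pool.Agent.P8H91.EL

open Finset MeasureTheory Pool.Agent.P8H91.GR
open scoped Pointwise

/-- A maximal separated subset of a finite set of lattice points. -/
theorem max_sep {d : ℕ} (Λ : Finset (Fin d → ℤ)) (L : Set (Fin d → ℝ)) (h0 : (0 : Fin d → ℝ) ∈ L)
    (hsymm : ∀ x ∈ L, -x ∈ L) :
    ∃ F ⊆ Λ, (∀ x ∈ F, ∀ y ∈ F, x ≠ y → x - y ∉ pts L) ∧ ∀ y ∈ Λ, ∃ x ∈ F, y - x ∈ pts L := by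
  classical
  set 𝓕 : Finset (Finset (Fin d → ℤ)) :=
    Λ.powerset.filter (fun F => ∀ x ∈ F, ∀ y ∈ F, x ≠ y → x - y ∉ pts L) with h𝓕
  have hne : 𝓕.Nonempty := ⟨∅, mem_filter.2 ⟨mem_powerset.2 (Finset.empty_subset _),
    fun x hx => absurd hx (Finset.notMem_empty x)⟩⟩
  obtain ⟨F, hF, hmax⟩ := Finset.exists_max_image 𝓕 Finset.card hne
  obtain ⟨hFΛ, hsep⟩ := mem_filter.1 hF
  rw [mem_powerset] at hFΛ
  have hneg : ∀ x : Fin d → ℤ, x ∈ pts L → -x ∈ pts L := by
    intro x hx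
    have h1 := hsymm _ hx
    have e : (fun i => (((-x) i : ℤ) : ℝ)) = -(fun i => ((x i : ℤ) : ℝ)) := by
      ext i; simp
    show (fun i => (((-x) i : ℤ) : ℝ)) ∈ L
    rw [e]; exact h1
  refine ⟨F, hFΛ, hsep, ?_⟩
  intro y hy
  by_contra hcon
  push Not at hcon
  have hyF : y ∉ F := by
    intro hyF
    apply hcon y hyF
    show (fun i => (((y - y) i : ℤ) : ℝ)) ∈ L
    have e : (fun i => (((y - y) i : ℤ) : ℝ)) = 0 := by ext i; simp
    rw [e]
    exact h0
  have h1 : insert y F ∈ 𝓕 := by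
    refine mem_filter.2 ⟨mem_powerset.2 (Finset.insert_subset hy hFΛ), ?_⟩
    intro u hu v hv huv
    rcases Finset.mem_insert.1 hu with rfl | hu'
    · rcases Finset.mem_insert.1 hv with rfl | hv'
      · exact absurd rfl huv
      · exact hcon v hv'
    · rcases Finset.mem_insert.1 hv with rfl | hv'
      · intro hB'
        apply hcon u hu'
        have h2 := hneg _ hB'
        rwa [neg_sub] at h2
      · exact hsep u hu' v hv' huv
  have h2 := hmax _ h1
  rw [Finset.card_insert_of_notMem hyF] at h2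
  omega

/-- Covering by volume. -/
theorem cover_vol {d : ℕ} (X L : Set (Fin d → ℝ)) (hX : Body X) (hL : Body L) (hLX : L ⊆ X) :
    ∃ F : Finset (Fin d → ℤ), (F.card : ENNReal) * volume L ≤ ENNReal.ofReal (3 ^ d) * volume X ∧
      ∀ y ∈ pts X, ∃ x ∈ F, y - x ∈ pts L := by
  classical
  have hfin : (pts X).Finite := pts_finite X hX.2.1.isBounded
  set r : (Fin d → ℤ) → (Fin d → ℝ) := fun c i => (c i : ℝ) with hr
  have hrsub : ∀ x y : Fin d → ℤ, r (x - y) = r x - r y := by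
    intro x y
    ext i
    simp [hr]
  obtain ⟨F, hFΛ, hsep, hcov⟩ := max_sep hfin.toFinset L (body_zero hL) hL.2.2.2
  refine ⟨F, ?_, fun y hy => hcov y ((Set.Finite.mem_toFinset _).2 hy)⟩
  have hmeas : MeasurableSet L := hL.2.1.measurableSet
  set H : Set (Fin d → ℝ) := (1 / 2 : ℝ) • L with hH
  have hHmeas : MeasurableSet H := hmeas.const_smul₀ _
  have hdisj : (F : Set (Fin d → ℤ)).PairwiseDisjoint (fun x => (r x) +ᵥ H) := by
    intro x hx y hy hxy
    rw [Function.onFun, Set.disjoint_left]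
    rintro z ⟨b, ⟨b', hb', rfl⟩, rfl⟩ ⟨c, ⟨c', hc', rfl⟩, hc⟩
    apply hsep x hx y hy hxy
    have e : r (x - y) = (1 / 2 : ℝ) • (c' - b') := by
      rw [hrsub, smul_sub]
      have h1 : r y + (1 / 2 : ℝ) • c' = r x + (1 / 2 : ℝ) • b' := hc
      have h2 : r x - r y = (1 / 2 : ℝ) • c' - (1 / 2 : ℝ) • b' := by
        rw [sub_eq_sub_iff_add_eq_add]
        rw [add_comm ((1 / 2 : ℝ) • c') (r y)]
        exact h1.symm
      exact h2
    show r (x - y) ∈ L
    rw [e]
    exact body_mid hL hc' hb'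
  have hsub : (⋃ x ∈ F, (r x) +ᵥ H) ⊆ (3 / 2 : ℝ) • X := by
    intro z hz
    simp only [Set.mem_iUnion] at hz
    obtain ⟨x, hx, b, ⟨b', hb', rfl⟩, rfl⟩ := hz
    have hxΛ : x ∈ pts X := by
      have := hFΛ hx
      rwa [Set.Finite.mem_toFinset] at this
    refine ⟨(2 / 3 : ℝ) • r x + (1 / 3 : ℝ) • b', ?_, ?_⟩
    · exact hX.1 hxΛ (hLX hb') (by norm_num) (by norm_num) (by norm_num)
    · show (3 / 2 : ℝ) • ((2 / 3 : ℝ) • r x + (1 / 3 : ℝ) • b') = r x + (1 / 2 : ℝ) • b'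
      rw [smul_add, smul_smul, smul_smul]
      norm_num
  have h1 : volume (⋃ x ∈ F, (r x) +ᵥ H) = ∑ x ∈ F, volume ((r x) +ᵥ H) :=
    measure_biUnion_finset hdisj fun x _ => hHmeas.const_vadd _
  have h2 : ∀ x ∈ F, volume ((r x) +ᵥ H) = volume H := fun x _ => measure_vadd _ _ _
  have h3 : volume H = ENNReal.ofReal ((1 / 2 : ℝ) ^ d) * volume L := by
    rw [hH, Measure.addHaar_smul]
    simp only [Module.finrank_fintype_fun_eq_card, Fintype.card_fin]
    rw [abs_of_nonneg (by positivity)]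
  have h4 : volume ((3 / 2 : ℝ) • X) = ENNReal.ofReal ((3 / 2 : ℝ) ^ d) * volume X := by
    rw [Measure.addHaar_smul]
    simp only [Module.finrank_fintype_fun_eq_card, Fintype.card_fin]
    rw [abs_of_nonneg (by positivity)]
  have h5 : (F.card : ENNReal) * (ENNReal.ofReal ((1 / 2 : ℝ) ^ d) * volume L) ≤
      ENNReal.ofReal ((3 / 2 : ℝ) ^ d) * volume X := by
    calc (F.card : ENNReal) * (ENNReal.ofReal ((1 / 2 : ℝ) ^ d) * volume L)
        = ∑ x ∈ F, volume ((r x) +ᵥ H) := by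
          rw [Finset.sum_congr rfl h2, Finset.sum_const, nsmul_eq_mul, h3]
      _ = volume (⋃ x ∈ F, (r x) +ᵥ H) := h1.symm
      _ ≤ volume ((3 / 2 : ℝ) • X) := measure_mono hsub
      _ = _ := h4
  have h6 : ENNReal.ofReal ((2 : ℝ) ^ d) * ((F.card : ENNReal) *
      (ENNReal.ofReal ((1 / 2 : ℝ) ^ d) * volume L)) = (F.card : ENNReal) * volume L := by
    have : ENNReal.ofReal ((2 : ℝ) ^ d) * ENNReal.ofReal ((1 / 2 : ℝ) ^ d) = 1 := by
      rw [← ENNReal.ofReal_mul (by positivity), ← mul_pow]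
      norm_num
    calc _ = (ENNReal.ofReal ((2 : ℝ) ^ d) * ENNReal.ofReal ((1 / 2 : ℝ) ^ d)) *
          ((F.card : ENNReal) * volume L) := by ring
      _ = _ := by rw [this, one_mul]
  have h7 : ENNReal.ofReal ((2 : ℝ) ^ d) * (ENNReal.ofReal ((3 / 2 : ℝ) ^ d) * volume X) =
      ENNReal.ofReal (3 ^ d) * volume X := by
    rw [← mul_assoc, ← ENNReal.ofReal_mul (by positivity), ← mul_pow]
    norm_num
  rw [← h6, ← h7]
  gcongr

/-- Dilates of a body by numbers are bodies. -/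
theorem Body.smul {d : ℕ} {B : Set (Fin d → ℝ)} (hB : Body B) {t : ℝ} (ht : 0 < t) :
    Body (t • B) := by
  refine ⟨hB.1.smul t, hB.2.1.smul t, ?_, ?_⟩
  · obtain ⟨x, hx⟩ := hB.2.2.1
    refine ⟨t • x, ?_⟩
    rw [interior_smul₀ ht.ne']
    exact Set.smul_mem_smul_set hx
  · rintro _ ⟨x, hx, rfl⟩
    exact ⟨-x, hB.2.2.2 x hx, by simp⟩

theorem smul_mono {d : ℕ} {B : Set (Fin d → ℝ)} (hB : Body B) {s t : ℝ} (hs : 0 ≤ s)
    (ht : 0 < t) (hst : s ≤ t) : s • B ⊆ t • B := by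
  rintro _ ⟨x, hx, rfl⟩
  refine ⟨(s / t) • x, ?_, ?_⟩
  · have h0 := body_zero hB
    have h1 : s / t ≤ 1 := (div_le_one ht).2 hst
    have h2 : 0 ≤ s / t := by positivity
    have := hB.1 hx h0 h2 (sub_nonneg.2 h1) (by ring)
    simpa using this
  · show t • ((s / t) • x) = s • x
    rw [smul_smul, mul_div_cancel₀ _ ht.ne']

/-- Small dilates contain only the origin. -/
theorem small_dilate {d : ℕ} {B : Set (Fin d → ℝ)} (hB : Body B) :
    ∃ j : ℕ, pts (((1 / 2 : ℝ) ^ j) • B) ⊆ {0} := by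
  obtain ⟨M, hM⟩ := hB.2.1.isBounded.exists_norm_le
  obtain ⟨j, hj⟩ := pow_unbounded_of_one_lt M (by norm_num : (1 : ℝ) < 2)
  refine ⟨j, ?_⟩
  intro c hc
  obtain ⟨x, hx, hxc⟩ := hc
  rw [Set.mem_singleton_iff]
  funext i
  have h1 : |x i| ≤ M := (norm_le_pi_norm x i).trans (hM x hx)
  have h2 : ((1 / 2 : ℝ) ^ j) * x i = (c i : ℝ) := by
    have := congrFun hxc i
    simpa using this
  have h3 : |(c i : ℝ)| < 1 := by
    rw [← h2, abs_mul, abs_of_pos (by positivity)]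
    have h4 : (1 / 2 : ℝ) ^ j * 2 ^ j = 1 := by
      rw [← mul_pow]; norm_num
    have h5 : (0 : ℝ) < (1 / 2) ^ j := by positivity
    calc (1 / 2 : ℝ) ^ j * |x i| ≤ (1 / 2) ^ j * M := by gcongr
      _ < (1 / 2) ^ j * 2 ^ j := by gcongr
      _ = 1 := h4
  have h5 : |c i| < 1 := by exact_mod_cast h3
  simpa using Int.abs_lt_one_iff.1 h5

/-- Shrinking a body to a given number of lattice points. -/
theorem shrink {d : ℕ} (E : Set (Fin d → ℝ)) (hE : Body E) (n₀ : ℕ) (hn : 1 ≤ n₀) :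
    ∃ t : ℝ, 0 < t ∧ t ≤ 1 ∧ (pts (t • E)).ncard ≤ n₀ ∧
      ∃ F : Finset (Fin d → ℤ), F.card * n₀ ≤ 45 ^ d * max n₀ (pts E).ncard ∧
        ∀ y ∈ pts E, ∃ x ∈ F, y - x ∈ pts (t • E) := by
  classical
  by_cases hcase : (pts E).ncard ≤ n₀
  · refine ⟨1, one_pos, le_rfl, by rw [one_smul]; exact hcase, {0}, ?_, ?_⟩
    · rw [Finset.card_singleton, one_mul]
      calc n₀ ≤ max n₀ (pts E).ncard := le_max_left _ _
        _ ≤ 45 ^ d * max n₀ (pts E).ncard := Nat.le_mul_of_pos_left _ (by positivity)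
    · intro y hy
      exact ⟨0, Finset.mem_singleton_self _, by rw [sub_zero, one_smul]; exact hy⟩
  push Not at hcase
  have hex : ∃ j : ℕ, (pts (((1 / 2 : ℝ) ^ j) • E)).ncard ≤ n₀ := by
    obtain ⟨j, hj⟩ := small_dilate hE
    refine ⟨j, (Set.ncard_le_ncard hj (Set.finite_singleton _)).trans ?_⟩
    rw [Set.ncard_singleton]
    exact hn
  set j := Nat.find hex with hj
  have hj1 : (pts (((1 / 2 : ℝ) ^ j) • E)).ncard ≤ n₀ := Nat.find_spec hex
  have hj0 : j ≠ 0 := by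
    intro h0
    rw [h0, pow_zero, one_smul] at hj1
    omega
  have hj2 : n₀ < (pts (((1 / 2 : ℝ) ^ (j - 1)) • E)).ncard := by
    by_contra hcon
    push Not at hcon
    exact Nat.find_min hex (m := j - 1) (by omega) hcon
  set t : ℝ := (1 / 2 : ℝ) ^ j with ht
  have ht0 : 0 < t := by positivity
  have ht1 : t ≤ 1 := pow_le_one₀ (by norm_num) (by norm_num)
  have hfin : (pts E).Finite := pts_finite E hE.2.1.isBounded
  have hbt : Body (t • E) := Body.smul hE ht0
  have hbh : Body ((t / 2) • E) := Body.smul hE (by positivity)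
  obtain ⟨F, hFΛ, hsep, hcov⟩ := max_sep hfin.toFinset (t • E) (body_zero hbt) hbt.2.2.2
  refine ⟨t, ht0, ht1, hj1, F, ?_, fun y hy => hcov y ((Set.Finite.mem_toFinset _).2 hy)⟩
  have hfh : (pts ((t / 2) • E)).Finite := pts_finite _ hbh.2.1.isBounded
  have hf2 : (pts (((2 : ℕ) : ℝ) • E)).Finite := pts_finite _ (hE.2.1.smul _).isBounded
  -- disjoint translates
  have hinj : F.card * (pts ((t / 2) • E)).ncard ≤ (pts (((2 : ℕ) : ℝ) • E)).ncard := by
    rw [Set.ncard_eq_toFinset_card _ hfh, Set.ncard_eq_toFinset_card _ hf2, ← Finset.card_product]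
    refine Finset.card_le_card_of_injOn (fun p => p.1 + p.2) ?_ ?_
    · rintro ⟨x, u⟩ hxu
      rw [Finset.mem_coe, Finset.mem_product] at hxu
      obtain ⟨hx, hu⟩ := hxu
      have hx' : x ∈ pts E := by
        have := hFΛ hx
        rwa [Set.Finite.mem_toFinset] at this
      have hu' : u ∈ pts ((t / 2) • E) := by
        rwa [Set.Finite.mem_toFinset] at hu
      rw [Finset.mem_coe, Set.Finite.mem_toFinset]
      obtain ⟨w, hw, hwu⟩ := smul_mono hE (by positivity : (0 : ℝ) ≤ t / 2) one_pos (by linarith) hu'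
      refine ⟨(1 / 2 : ℝ) • (fun i => (x i : ℝ)) + (1 / 2 : ℝ) • w, ?_, ?_⟩
      · exact hE.1 hx' hw (by norm_num) (by norm_num) (by norm_num)
      · have hwu' : w = (fun i => (u i : ℝ)) := by
          rw [← hwu]; exact (one_smul ℝ w).symm
        rw [hwu']
        ext i
        simp
        ring
    · rintro ⟨x, u⟩ hxu ⟨y, v⟩ hyv hxy
      rw [Finset.mem_coe, Finset.mem_product] at hxu hyv
      have hu : u ∈ pts ((t / 2) • E) := by
        have := hxu.2
        rwa [Set.Finite.mem_toFinset] at this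
      have hv : v ∈ pts ((t / 2) • E) := by
        have := hyv.2
        rwa [Set.Finite.mem_toFinset] at this
      have hxy' : x + u = y + v := hxy
      by_cases hne : x = y
      · subst hne
        rw [add_left_cancel hxy']
      · exfalso
        apply hsep x hxu.1 y hyv.1 hne
        obtain ⟨b, hb, hbu⟩ := hu
        obtain ⟨c, hc, hcv⟩ := hv
        refine ⟨(1 / 2 : ℝ) • (c - b), body_mid hE hc hb, ?_⟩
        ext i
        have h1 := congrFun hbu i
        have h2 := congrFun hcv i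
        have h3 : (x i : ℝ) + u i = y i + v i := by exact_mod_cast congrFun hxy' i
        simp only [Pi.smul_apply, smul_eq_mul, Pi.sub_apply] at h1 h2 ⊢
        push_cast
        linarith
  have h5 : (pts (((2 : ℕ) : ℝ) • E)).ncard ≤ 5 ^ d * (pts E).ncard := by
    have := lat_growth E hE 2
    simpa using this
  have h9 : (pts (((1 / 2 : ℝ) ^ (j - 1)) • E)).ncard ≤ 9 ^ d * (pts ((t / 2) • E)).ncard := by
    have h := lat_growth ((t / 2) • E) hbh 4
    have e : ((4 : ℕ) : ℝ) • (t / 2) • E = ((1 / 2 : ℝ) ^ (j - 1)) • E := by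
      rw [smul_smul]
      congr 1
      have : t = (1 / 2 : ℝ) ^ (j - 1) * (1 / 2) := by
        rw [ht, ← pow_succ]
        congr 1
        omega
      rw [this]
      push_cast
      ring
    rw [e] at h
    simpa using h
  calc F.card * n₀ ≤ F.card * (9 ^ d * (pts ((t / 2) • E)).ncard) := by
        exact Nat.mul_le_mul_left _ (hj2.le.trans h9)
    _ = 9 ^ d * (F.card * (pts ((t / 2) • E)).ncard) := by ring
    _ ≤ 9 ^ d * (5 ^ d * (pts E).ncard) := Nat.mul_le_mul_left _ (hinj.trans h5)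
    _ = 45 ^ d * (pts E).ncard := by
        rw [← mul_assoc, ← mul_pow]
        norm_num
    _ ≤ 45 ^ d * max n₀ (pts E).ncard := Nat.mul_le_mul_left _ (le_max_right _ _)

end Pool.Agent.P8H91.EL
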