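import Pool.Agent.P8H91.EL.Ell
import Pool.Agent.H845R2.MP2

/-!
# Ellipsoids of Milman for the lattice points of a convex body
-/

set_option autoImplicit false

namespace Pool.Agent.P8H91.EL

open Finset MeasureTheory Pool.Agent.P8H91.GR Pool.Agent.H845R2
open scoped Pointwise

theorem cb_of_body {d : ℕ} {B : Set (Fin d → ℝ)} (hB : Body B) : CB B :=
  ⟨hB.2.1, hB.1, hB.2.2.2, hB.2.2.1⟩

theorem body_inter {d : ℕ} {B E : Set (Fin d → ℝ)} (hB : Body B) (hE : Body E)
    (hB0 : B ∈ nhds (0 : Fin d → ℝ)) (hE0 : E ∈ nhds (0 : Fin d → ℝ)) : Body (B ∩ E) := by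
  refine ⟨hB.1.inter hE.1, hB.2.1.inter hE.2.1, ⟨0, ?_⟩, fun x hx => ⟨hB.2.2.2 x hx.1,
    hE.2.2.2 x hx.2⟩⟩
  exact mem_interior_iff_mem_nhds.2 (Filter.inter_mem hB0 hE0)

theorem body_nhds {d : ℕ} {B : Set (Fin d → ℝ)} (hB : Body B) : B ∈ nhds (0 : Fin d → ℝ) := by
  obtain ⟨h1, -, ⟨x, hx⟩, h3⟩ := hB
  rw [← mem_interior_iff_mem_nhds]
  have hneg : -x ∈ B := h3 x (interior_subset hx)
  have h4 := h1.combo_interior_self_mem_interior hx hneg (by norm_num : (0 : ℝ) < 1 / 2)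
    (by norm_num : (0 : ℝ) ≤ 1 / 2) (by norm_num)
  have e : (1 / 2 : ℝ) • x + (1 / 2 : ℝ) • (-x) = 0 := by
    rw [smul_neg, add_neg_cancel]
  rwa [e] at h4

/-- A convex body has an ellipsoid whose intersection with it is large. -/
theorem milman {d : ℕ} (hd : 0 < d) (B : Set (Fin d → ℝ)) (hB : Body B) :
    ∃ M : Matrix (Fin d) (Fin d) ℝ, M.det ≠ 0 ∧ Body (B ∩ Ell M) ∧
      (volume B).toReal ≤ 12 ^ d * (volume (B ∩ Ell M)).toReal ∧
      (volume (Ell M)).toReal ≤ 384 ^ d * (volume (B ∩ Ell M)).toReal := by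
  have hcard : Fintype.card (Fin d) = d := Fintype.card_fin d
  obtain ⟨S, hS, h1, h2⟩ := (cb_of_body hB).milman_position (by rw [hcard]; exact hd)
  rw [hcard] at h1 h2
  have hdR : (1 : ℝ) ≤ d := by exact_mod_cast hd
  have hu : IsUnit S.det := isUnit_iff_ne_zero.2 hS
  set ρ : ℝ := Real.sqrt (2 * d) with hρ
  have hρ0 : 0 < ρ := Real.sqrt_pos.2 (by positivity)
  have hρ2 : ρ ^ 2 = 2 * d := Real.sq_sqrt (by positivity)
  set M : Matrix (Fin d) (Fin d) ℝ := ρ⁻¹ • S with hM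
  have hdet : M.det ≠ 0 := by
    rw [hM, Matrix.det_smul]
    exact mul_ne_zero (pow_ne_zero _ (inv_ne_zero hρ0.ne')) hS
  set Q : Set (Fin d → ℝ) := {y : Fin d → ℝ | ∑ i, (y i) ^ 2 ≤ 2 * d} with hQ
  have hQ' : {y : Fin d → ℝ | y ⬝ᵥ y ≤ 2 * d} = Q := by
    ext y
    have e : y ⬝ᵥ y = ∑ i, (y i) ^ 2 := by
      unfold dotProduct
      exact Finset.sum_congr rfl fun i _ => (sq (y i)).symm
    show y ⬝ᵥ y ≤ 2 * d ↔ ∑ i, (y i) ^ 2 ≤ 2 * d
    rw [e]
  rw [hQ'] at h2
  have hmem : ∀ x, x ∈ Ell M ↔ S.mulVec x ∈ Q := by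
    intro x
    show ∑ i, (∑ j, M i j * x j) ^ 2 ≤ 1 ↔ ∑ i, (S.mulVec x i) ^ 2 ≤ 2 * d
    have e : ∀ i, ∑ j, M i j * x j = ρ⁻¹ * S.mulVec x i := by
      intro i
      show _ = ρ⁻¹ * ∑ j, S i j * x j
      rw [Finset.mul_sum]
      refine Finset.sum_congr rfl fun j _ => ?_
      rw [hM, Matrix.smul_apply, smul_eq_mul]
      ring
    simp_rw [e, mul_pow]
    rw [← Finset.mul_sum, inv_pow, hρ2, inv_mul_le_iff₀ (by positivity), mul_one]
  have hinj : Function.Injective S.mulVec := by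
    intro x y hxy
    have h := congrArg S⁻¹.mulVec hxy
    rwa [Matrix.mulVec_mulVec, Matrix.mulVec_mulVec, Matrix.nonsing_inv_mul _ hu,
      Matrix.one_mulVec, Matrix.one_mulVec] at h
  have himE : S.mulVec '' Ell M = Q := by
    ext y
    constructor
    · rintro ⟨x, hx, rfl⟩
      exact (hmem x).1 hx
    · intro hy
      have e : S.mulVec (S⁻¹.mulVec y) = y := by
        rw [Matrix.mulVec_mulVec, Matrix.mul_nonsing_inv _ hu, Matrix.one_mulVec]
      exact ⟨S⁻¹.mulVec y, (hmem _).2 (by rw [e]; exact hy), e⟩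
  have himL : S.mulVec '' (B ∩ Ell M) = S.mulVec '' B ∩ Q := by
    rw [Set.image_inter hinj, himE]
  have himg : ∀ X : Set (Fin d → ℝ), (volume (S.mulVec '' X)).toReal =
      |S.det| * (volume X).toReal := by
    intro X
    have h := Measure.addHaar_image_linearMap (volume : Measure (Fin d → ℝ)) (Matrix.toLin' S) X
    rw [LinearMap.det_toLin'] at h
    have h' : volume (S.mulVec '' X) = ENNReal.ofReal |S.det| * volume X := h
    rw [h', ENNReal.toReal_mul, ENNReal.toReal_ofReal (abs_nonneg _)]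
  have hs : 0 < |S.det| := abs_pos.2 hS
  have hE := ell_body M hdet
  refine ⟨M, hdet, body_inter hB hE (body_nhds hB) (body_nhds hE), ?_, ?_⟩
  · rw [← himL, himg, himg] at h2
    have h3 : (volume B).toReal ≤ 2 * Real.exp d * 2 ^ d * (volume (B ∩ Ell M)).toReal := by
      have h4 : |S.det| * (volume B).toReal ≤
          |S.det| * (2 * Real.exp d * 2 ^ d * (volume (B ∩ Ell M)).toReal) := by
        calc _ ≤ _ := h2
          _ = _ := by ring
      exact le_of_mul_le_mul_left h4 hs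
    refine h3.trans ?_
    gcongr
    calc 2 * Real.exp d * 2 ^ d ≤ 2 ^ d * 3 ^ d * 2 ^ d := by
          gcongr
          · calc (2 : ℝ) = 2 ^ 1 := (pow_one _).symm
              _ ≤ 2 ^ d := pow_le_pow_right₀ (by norm_num) hd
          · rw [show (d : ℝ) = d * 1 by ring, Real.exp_nat_mul]
            exact pow_le_pow_left₀ (Real.exp_pos _).le (by linarith [Real.exp_one_lt_d9]) d
      _ = 12 ^ d := by rw [← mul_pow, ← mul_pow]; norm_num
  · have h3 : |S.det| * (volume (Ell M)).toReal ≤ 16 ^ d := by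
      rw [← himg, himE]
      exact ball_vol d
    set V := (volume (S.mulVec '' B)).toReal with hV
    have hV0 : 0 ≤ V := ENNReal.toReal_nonneg
    have h4 : (1 / 2 : ℝ) ^ d ≤ V := by
      have h5 : ((1 / 2 : ℝ) ^ d) ^ 2 ≤ V ^ 2 := by
        refine le_trans ?_ h1
        rw [← pow_mul, mul_comm d 2, pow_mul]
        refine pow_le_pow_left₀ (by norm_num) ?_ d
        have := Real.pi_gt_three
        norm_num
        linarith
      exact le_of_sq_le_sq h5 hV0
    have h6 : (1 / 2 : ℝ) ^ d ≤ 12 ^ d * (|S.det| * (volume (B ∩ Ell M)).toReal) := by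
      refine h4.trans (h2.trans ?_)
      rw [← himL, himg]
      gcongr
      calc 2 * Real.exp d * 2 ^ d ≤ 2 ^ d * 3 ^ d * 2 ^ d := by
            gcongr
            · calc (2 : ℝ) = 2 ^ 1 := (pow_one _).symm
                _ ≤ 2 ^ d := pow_le_pow_right₀ (by norm_num) hd
            · rw [show (d : ℝ) = d * 1 by ring, Real.exp_nat_mul]
              exact pow_le_pow_left₀ (Real.exp_pos _).le (by linarith [Real.exp_one_lt_d9]) d
        _ = 12 ^ d := by rw [← mul_pow, ← mul_pow]; norm_num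
    have h7 : |S.det| * (volume (Ell M)).toReal ≤
        |S.det| * (384 ^ d * (volume (B ∩ Ell M)).toReal) := by
      calc |S.det| * (volume (Ell M)).toReal ≤ 16 ^ d := h3
        _ = 32 ^ d * (1 / 2) ^ d := by rw [← mul_pow]; norm_num
        _ ≤ 32 ^ d * (12 ^ d * (|S.det| * (volume (B ∩ Ell M)).toReal)) := by gcongr
        _ = (32 * 12) ^ d * (|S.det| * (volume (B ∩ Ell M)).toReal) := by
            rw [mul_pow]; ring
        _ = |S.det| * (384 ^ d * (volume (B ∩ Ell M)).toReal) := by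
            norm_num
            ring
    exact le_of_mul_le_mul_left h7 hs

end Pool.Agent.P8H91.EL
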