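import Pool.Agent.P8H91.EL.Aue

/-!
# Ellipsoids of Milman, for the lattice points of all dilates
-/

set_option autoImplicit false

namespace Pool.Agent.P8H91.EL

open Finset MeasureTheory Pool.Agent.P8H91.GR
open scoped Pointwise

theorem milman2 {d : ℕ} (hd : 0 < d) (B : Set (Fin d → ℝ)) (hB : Body B) :
    ∃ M : Matrix (Fin d) (Fin d) ℝ, M.det ≠ 0 ∧ Ell M ⊆ (d : ℝ) • B ∧ Body (B ∩ Ell M) ∧
      (volume B).toReal ≤ 24 ^ d * (volume (B ∩ Ell M)).toReal ∧
      (volume (Ell M)).toReal ≤ 768 ^ d * (volume (B ∩ Ell M)).toReal := by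
  classical
  have hdR : (1 : ℝ) ≤ d := by exact_mod_cast hd
  have hd0 : (0 : ℝ) < d := by linarith
  obtain ⟨M, hM, hbody, h1, h2⟩ := milman hd B hB
  obtain ⟨W, hW1, hW2⟩ := auerbach B hB
  set r : ℝ := (Real.sqrt d)⁻¹ with hr
  have hr2 : r ^ 2 = (d : ℝ)⁻¹ := by rw [hr, inv_pow, Real.sq_sqrt hd0.le]
  obtain ⟨R, hR, hsum⟩ := sum_forms M (r • W) hM
  have hsum' : ∀ x : Fin d → ℝ, ∑ i, (R.mulVec x i) ^ 2 =
      ∑ i, (M.mulVec x i) ^ 2 + (d : ℝ)⁻¹ * ∑ i, (W.mulVec x i) ^ 2 := by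
    intro x
    rw [hsum, Finset.mul_sum]
    congr 1
    refine Finset.sum_congr rfl fun i _ => ?_
    rw [Matrix.smul_mulVec, Pi.smul_apply, smul_eq_mul, mul_pow, hr2]
  have hell : ∀ (A : Matrix (Fin d) (Fin d) ℝ) (x : Fin d → ℝ),
      x ∈ Ell A ↔ ∑ i, (A.mulVec x i) ^ 2 ≤ 1 := fun A x => Iff.rfl
  have hE := ell_body R hR
  have hEM : Ell R ⊆ Ell M := by
    intro x hx
    rw [hell] at hx ⊢
    rw [hsum'] at hx
    have h3 : 0 ≤ (d : ℝ)⁻¹ * ∑ i, (W.mulVec x i) ^ 2 :=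
      mul_nonneg (by positivity) (Finset.sum_nonneg fun i _ => sq_nonneg _)
    linarith
  have hhalf : (1 / 2 : ℝ) • (B ∩ Ell M) ⊆ B ∩ Ell R := by
    rintro _ ⟨x, ⟨hxB, hxE⟩, rfl⟩
    refine ⟨?_, ?_⟩
    · exact hB.1.smul_mem_of_zero_mem (body_zero hB) hxB ⟨by norm_num, by norm_num⟩
    · rw [hell] at hxE ⊢
      rw [hsum']
      have e1 : ∀ A : Matrix (Fin d) (Fin d) ℝ, ∑ i, (A.mulVec ((1 / 2 : ℝ) • x) i) ^ 2 =
          (1 / 4) * ∑ i, (A.mulVec x i) ^ 2 := by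
        intro A
        rw [Finset.mul_sum]
        refine Finset.sum_congr rfl fun i _ => ?_
        rw [Matrix.mulVec_smul, Pi.smul_apply, smul_eq_mul]
        ring
      show ∑ i, (M.mulVec ((1 / 2 : ℝ) • x) i) ^ 2 +
        (d : ℝ)⁻¹ * ∑ i, (W.mulVec ((1 / 2 : ℝ) • x) i) ^ 2 ≤ 1
      rw [e1, e1]
      have e2 : ∑ i, (W.mulVec x i) ^ 2 ≤ d := by
        calc ∑ i, (W.mulVec x i) ^ 2 ≤ ∑ _i : Fin d, (1 : ℝ) := by
              refine Finset.sum_le_sum fun i _ => ?_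
              have := hW1 x hxB i
              rw [← sq_abs]
              have h0 := abs_nonneg (W.mulVec x i)
              nlinarith
          _ = d := by simp
      have e3 : (d : ℝ)⁻¹ * ((1 / 4) * ∑ i, (W.mulVec x i) ^ 2) ≤ 1 / 4 := by
        calc (d : ℝ)⁻¹ * ((1 / 4) * ∑ i, (W.mulVec x i) ^ 2) ≤ (d : ℝ)⁻¹ * ((1 / 4) * d) := by
              gcongr
          _ = 1 / 4 := by field_simp
      linarith
  have hER : Ell R ⊆ (d : ℝ) • B := by
    intro x hx
    rw [Set.mem_smul_set_iff_inv_smul_mem₀ hd0.ne']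
    apply hW2
    rw [hell, hsum'] at hx
    have h3 : 0 ≤ ∑ i, (M.mulVec x i) ^ 2 := Finset.sum_nonneg fun i _ => sq_nonneg _
    have h4 : ∑ i, (W.mulVec x i) ^ 2 ≤ d := by
      have h5 : (d : ℝ)⁻¹ * ∑ i, (W.mulVec x i) ^ 2 ≤ 1 := by linarith
      rwa [inv_mul_le_iff₀ hd0, mul_one] at h5
    have h5 : ∀ i, |W.mulVec ((d : ℝ)⁻¹ • x) i| = (d : ℝ)⁻¹ * |W.mulVec x i| := by
      intro i
      rw [Matrix.mulVec_smul, Pi.smul_apply, smul_eq_mul, abs_mul, abs_of_pos (by positivity)]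
    simp_rw [h5]
    rw [← Finset.mul_sum, inv_mul_le_iff₀ hd0, mul_one]
    have h6 : (∑ i, |W.mulVec x i|) ^ 2 ≤ (d : ℝ) ^ 2 := by
      calc (∑ i, |W.mulVec x i|) ^ 2 ≤ (Finset.univ : Finset (Fin d)).card *
            ∑ i, |W.mulVec x i| ^ 2 := sq_sum_le_card_mul_sum_sq
        _ = d * ∑ i, (W.mulVec x i) ^ 2 := by
            rw [Finset.card_univ, Fintype.card_fin]
            simp_rw [sq_abs]
        _ ≤ d * d := by gcongr
        _ = (d : ℝ) ^ 2 := by ring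
    exact le_of_sq_le_sq h6 hd0.le
  have hL : Body (B ∩ Ell R) := body_inter hB hE (body_nhds hB) (body_nhds hE)
  have hfin : volume (B ∩ Ell R) ≠ ⊤ := hL.2.1.measure_lt_top.ne
  have hvol : (volume (B ∩ Ell M)).toReal ≤ 2 ^ d * (volume (B ∩ Ell R)).toReal := by
    have h3 : volume ((1 / 2 : ℝ) • (B ∩ Ell M)) ≤ volume (B ∩ Ell R) := measure_mono hhalf
    have h4 := ENNReal.toReal_mono hfin h3
    rw [Measure.addHaar_smul, ENNReal.toReal_mul, ENNReal.toReal_ofReal (abs_nonneg _),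
      Module.finrank_fintype_fun_eq_card, Fintype.card_fin, abs_of_pos (by positivity)] at h4
    calc (volume (B ∩ Ell M)).toReal = 2 ^ d * ((1 / 2) ^ d * (volume (B ∩ Ell M)).toReal) := by
          rw [← mul_assoc, ← mul_pow]; norm_num
      _ ≤ _ := by gcongr
  refine ⟨R, hR, hER, hL, ?_, ?_⟩
  · calc (volume B).toReal ≤ 12 ^ d * (volume (B ∩ Ell M)).toReal := h1
      _ ≤ 12 ^ d * (2 ^ d * (volume (B ∩ Ell R)).toReal) := by gcongr
      _ = 24 ^ d * (volume (B ∩ Ell R)).toReal := by rw [← mul_assoc, ← mul_pow]; norm_num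
  · have h3 : (volume (Ell R)).toReal ≤ (volume (Ell M)).toReal :=
      ENNReal.toReal_mono (ell_body M hM).2.1.measure_lt_top.ne (measure_mono hEM)
    calc (volume (Ell R)).toReal ≤ 384 ^ d * (volume (B ∩ Ell M)).toReal := h3.trans h2
      _ ≤ 384 ^ d * (2 ^ d * (volume (B ∩ Ell R)).toReal) := by gcongr
      _ = 768 ^ d * (volume (B ∩ Ell R)).toReal := by rw [← mul_assoc, ← mul_pow]; norm_num

/-- Covering by volume, with real numbers. -/
theorem cover_real {d : ℕ} (X L : Set (Fin d → ℝ)) (hX : Body X) (hL : Body L) (hLX : L ⊆ X)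
    (c : ℕ) (hc : (volume X).toReal ≤ (c : ℝ) ^ d * (volume L).toReal) :
    ∃ F : Finset (Fin d → ℤ), F.card ≤ (3 * c) ^ d ∧ ∀ y ∈ pts X, ∃ x ∈ F, y - x ∈ pts L := by
  obtain ⟨F, hF, hcov⟩ := cover_vol X L hX hL hLX
  refine ⟨F, ?_, hcov⟩
  have hXfin : volume X ≠ ⊤ := hX.2.1.measure_lt_top.ne
  have hL0 : 0 < volume L := by
    have h1 : 0 < volume (interior L) := isOpen_interior.measure_pos _ hL.2.2.1
    exact lt_of_lt_of_le h1 (measure_mono interior_subset)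
  have hL1 : 0 < (volume L).toReal := ENNReal.toReal_pos hL0.ne' hL.2.1.measure_lt_top.ne
  have h1 := ENNReal.toReal_mono (ENNReal.mul_ne_top ENNReal.ofReal_ne_top hXfin) hF
  rw [ENNReal.toReal_mul, ENNReal.toReal_mul, ENNReal.toReal_natCast,
    ENNReal.toReal_ofReal (by positivity)] at h1
  have h2 : (F.card : ℝ) * (volume L).toReal ≤ ((3 * c : ℝ) ^ d) * (volume L).toReal := by
    calc (F.card : ℝ) * (volume L).toReal ≤ 3 ^ d * (volume X).toReal := h1
      _ ≤ 3 ^ d * ((c : ℝ) ^ d * (volume L).toReal) := by gcongr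
      _ = _ := by rw [mul_pow]; ring
  have h3 := le_of_mul_le_mul_right h2 hL1
  exact_mod_cast h3

/-- **Ellipsoids of Milman for lattice points, at all scales.** -/
theorem all_scales {d : ℕ} (B : Set (Fin d → ℝ)) (hB : Body B) :
    ∃ M : Matrix (Fin d) (Fin d) ℝ, M.det ≠ 0 ∧ Ell M ⊆ (d : ℝ) • B ∧ ∀ t : ℝ, 0 < t →
      (∃ F : Finset (Fin d → ℤ), F.card ≤ 72 ^ d ∧
        ∀ y ∈ pts (t • B), ∃ x ∈ F, y - x ∈ pts (t • (B ∩ Ell M))) ∧
      ∃ F : Finset (Fin d → ℤ), F.card ≤ 2304 ^ d ∧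
        ∀ y ∈ pts (t • Ell M), ∃ x ∈ F, y - x ∈ pts (t • (B ∩ Ell M)) := by
  rcases Nat.eq_zero_or_pos d with rfl | hd
  · have hall : ∀ (X : Set (Fin 0 → ℝ)), (0 : Fin 0 → ℝ) ∈ X → X = Set.univ := by
      intro X hX
      ext x
      exact ⟨fun _ => trivial, fun _ => by rw [Subsingleton.elim x 0]; exact hX⟩
    have hB0 := hall B (body_zero hB)
    have hdet : (1 : Matrix (Fin 0) (Fin 0) ℝ).det ≠ 0 := by simp
    have hE0 := hall _ (body_zero (ell_body (1 : Matrix (Fin 0) (Fin 0) ℝ) hdet))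
    refine ⟨1, hdet, ?_, fun t ht => ?_⟩
    · intro x _
      exact ⟨0, body_zero hB, Subsingleton.elim _ _⟩
    · have h1 : ∀ c : Fin 0 → ℤ, c ∈ pts (t • (B ∩ Ell (1 : Matrix (Fin 0) (Fin 0) ℝ))) := by
        intro c
        exact ⟨0, by rw [hB0, hE0]; simp, Subsingleton.elim _ _⟩
      exact ⟨⟨{0}, by simp, fun y _ => ⟨0, by simp, h1 _⟩⟩, ⟨{0}, by simp, fun y _ => ⟨0, by simp, h1 _⟩⟩⟩
  · obtain ⟨M, hM, hsub, hL, h1, h2⟩ := milman2 hd B hB
    refine ⟨M, hM, hsub, fun t ht => ?_⟩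
    have hE := ell_body M hM
    have hsm : ∀ X : Set (Fin d → ℝ), (volume (t • X)).toReal = t ^ d * (volume X).toReal := by
      intro X
      rw [Measure.addHaar_smul, ENNReal.toReal_mul, ENNReal.toReal_ofReal (abs_nonneg _),
        Module.finrank_fintype_fun_eq_card, Fintype.card_fin, abs_of_pos (by positivity)]
    constructor
    · have := cover_real (t • B) (t • (B ∩ Ell M)) (Body.smul hB ht) (Body.smul hL ht)
        (Set.smul_set_mono Set.inter_subset_left) 24 (by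
          rw [hsm, hsm]
          have := mul_le_mul_of_nonneg_left h1 (by positivity : 0 ≤ t ^ d)
          push_cast
          linarith)
      simpa using this
    · have := cover_real (t • Ell M) (t • (B ∩ Ell M)) (Body.smul hE ht) (Body.smul hL ht)
        (Set.smul_set_mono Set.inter_subset_right) 768 (by
          rw [hsm, hsm]
          have := mul_le_mul_of_nonneg_left h2 (by positivity : 0 ≤ t ^ d)
          push_cast
          linarith)
      simpa using this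

/-- The same, with an ellipsoid which has at most as many lattice points as the body. -/
theorem normalised {d : ℕ} (B : Set (Fin d → ℝ)) (hB : Body B) :
    ∃ M : Matrix (Fin d) (Fin d) ℝ, M.det ≠ 0 ∧ (pts (Ell M)).ncard ≤ (pts B).ncard ∧
      ∃ F : Finset (Fin d → ℤ), F.card ≤ 7464960 ^ d ∧
        ∀ y ∈ pts B, ∃ x ∈ F, y - x ∈ pts (Ell M) := by
  classical
  obtain ⟨M, hM, -, hsc⟩ := all_scales B hB
  obtain ⟨⟨F, hF, hFc⟩, ⟨F', hF', hFc'⟩⟩ := hsc 1 one_pos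
  rw [one_smul, one_smul] at hFc
  rw [one_smul, one_smul] at hFc'
  have hE := ell_body M hM
  have hfB : (pts B).Finite := pts_finite B hB.2.1.isBounded
  have hfE : (pts (Ell M)).Finite := pts_finite _ hE.2.1.isBounded
  have hn : 1 ≤ (pts B).ncard := by
    rw [Nat.one_le_iff_ne_zero, ← Nat.pos_iff_ne_zero, Set.ncard_pos hfB]
    refine ⟨0, ?_⟩
    show (fun i => (((0 : Fin d → ℤ) i : ℤ) : ℝ)) ∈ B
    have e : (fun i => (((0 : Fin d → ℤ) i : ℤ) : ℝ)) = 0 := by ext i; simp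
    rw [e]
    exact body_zero hB
  have hEB : (pts (Ell M)).ncard ≤ 2304 ^ d * (pts B).ncard := by
    rw [Set.ncard_eq_toFinset_card _ hfE, Set.ncard_eq_toFinset_card _ hfB]
    have h1 : hfE.toFinset ⊆ F' + hfB.toFinset := by
      intro y hy
      rw [Set.Finite.mem_toFinset] at hy
      obtain ⟨x, hx, hxy⟩ := hFc' y hy
      rw [Finset.mem_add]
      refine ⟨x, hx, y - x, ?_, by abel⟩
      rw [Set.Finite.mem_toFinset]
      exact hxy.1
    calc hfE.toFinset.card ≤ (F' + hfB.toFinset).card := Finset.card_le_card h1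
      _ ≤ F'.card * hfB.toFinset.card := Finset.card_add_le
      _ ≤ _ := Nat.mul_le_mul_right _ hF'
  obtain ⟨t, ht0, ht1, hcard, F₂, hF₂, hcov₂⟩ := shrink (Ell M) hE (pts B).ncard hn
  refine ⟨t⁻¹ • M, ?_, ?_, F + F₂, ?_, ?_⟩
  · rw [Matrix.det_smul]
    exact mul_ne_zero (pow_ne_zero _ (inv_ne_zero ht0.ne')) hM
  · rw [← ell_smul M ht0]
    exact hcard
  · have h1 : F₂.card ≤ (45 * 2304) ^ d := by
      have h2 : max (pts B).ncard (pts (Ell M)).ncard ≤ 2304 ^ d * (pts B).ncard := by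
        refine max_le ?_ hEB
        exact Nat.le_mul_of_pos_left _ (by positivity)
      have h3 : F₂.card * (pts B).ncard ≤ (45 * 2304) ^ d * (pts B).ncard := by
        calc F₂.card * (pts B).ncard ≤ 45 ^ d * max (pts B).ncard (pts (Ell M)).ncard := hF₂
          _ ≤ 45 ^ d * (2304 ^ d * (pts B).ncard) := Nat.mul_le_mul_left _ h2
          _ = _ := by rw [mul_pow]; ring
      exact Nat.le_of_mul_le_mul_right h3 hn
    calc (F + F₂).card ≤ F.card * F₂.card := Finset.card_add_le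
      _ ≤ 72 ^ d * (45 * 2304) ^ d := Nat.mul_le_mul hF h1
      _ = 7464960 ^ d := by rw [← mul_pow]; norm_num
  · intro y hy
    obtain ⟨x, hx, hxy⟩ := hFc y hy
    obtain ⟨z, hz, hzy⟩ := hcov₂ (y - x) hxy.2
    refine ⟨x + z, Finset.add_mem_add hx hz, ?_⟩
    rw [← ell_smul M ht0]
    have e : y - (x + z) = y - x - z := by abel
    rw [e]
    exact hzy

end Pool.Agent.P8H91.EL
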